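import Mathlib

/-!
# Logarithm and fractional powers in a commutative Banach algebra (good elements)
-/

namespace Pool.Agent.R815.Fp

set_option linter.unusedSectionVars false
set_option linter.unusedSimpArgs false

open Set MeasureTheory Filter Topology

variable {C : Type*} [NormedCommRing C] [NormedAlgebra ℂ C] [CompleteSpace C]

/-- the segment from `1` to `b` -/
noncomputable def Mx (b : C) (s : ℝ) : C := 1 + s • (b - 1)

/-- its inverse -/
noncomputable def J (b : C) (s : ℝ) : C := Ring.inverse (Mx b s)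

/-- good elements: the segment from `1` to `b` consists of units, with inverses bounded by `m` -/
def Gd (m : ℝ) (b : C) : Prop := ∀ s ∈ Icc (0 : ℝ) 1, IsUnit (Mx b s) ∧ ‖J b s‖ ≤ m

lemma Mx_zero (b : C) : Mx b 0 = 1 := by simp [Mx]
lemma Mx_one (b : C) : Mx b 1 = b := by simp [Mx]

lemma J_zero (b : C) : J b 0 = 1 := by simp [J, Mx_zero]
lemma J_one (b : C) : J b 1 = Ring.inverse b := by simp [J, Mx_one]

lemma J_mul {m : ℝ} {b : C} (h : Gd m b) {s : ℝ} (hs : s ∈ Icc (0 : ℝ) 1) : Mx b s * J b s = 1 :=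
  Ring.mul_inverse_cancel _ (h s hs).1

lemma Gd.unit {m : ℝ} {b : C} (h : Gd m b) : IsUnit b := by
  have := (h 1 (by simp)).1
  rwa [Mx_one] at this

lemma Gd.mul_inv {m : ℝ} {b : C} (h : Gd m b) : b * Ring.inverse b = 1 :=
  Ring.mul_inverse_cancel _ h.unit

lemma Gd.pos {m : ℝ} {b : C} (h : Gd m b) : 0 ≤ m :=
  (norm_nonneg _).trans (h 1 (by simp)).2

lemma J_sub {m m' : ℝ} {b c : C} (hb : Gd m b) (hc : Gd m' c) {s : ℝ} (hs : s ∈ Icc (0 : ℝ) 1) :
    J c s - J b s = -(s • (c - b) * J b s * J c s) := by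
  have h1 := J_mul hb hs
  have h2 := J_mul hc hs
  unfold Mx at h1 h2
  simp only [Algebra.smul_def] at *
  linear_combination (-J c s) * h1 + (J b s) * h2

lemma bJ_sub {m m' : ℝ} {b c : C} (hb : Gd m b) (hc : Gd m' c) {s : ℝ} (hs : s ∈ Icc (0 : ℝ) 1) :
    c * J c s - b * J b s = (c - b) * ((1 - s) • (J b s * J c s)) := by
  have h1 := J_mul hb hs
  have h2 := J_mul hc hs
  unfold Mx at h1 h2
  simp only [Algebra.smul_def, map_sub, map_one] at *
  linear_combination (-(c * J c s)) * h1 + (b * J b s) * h2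

lemma lJ_sub {m m' : ℝ} {b c : C} (hb : Gd m b) (hc : Gd m' c) {s : ℝ} (hs : s ∈ Icc (0 : ℝ) 1) :
    (c - 1) * J c s - (b - 1) * J b s = (c - b) * (J b s * J c s) := by
  have h1 := J_mul hb hs
  have h2 := J_mul hc hs
  unfold Mx at h1 h2
  simp only [Algebra.smul_def, map_sub, map_one] at *
  linear_combination (-((c - 1) * J c s)) * h1 + ((b - 1) * J b s) * h2

lemma J_hasDeriv {m : ℝ} {b : C} (hb : Gd m b) {s : ℝ} (hs : s ∈ Icc (0 : ℝ) 1) :
    HasDerivAt (J b) (-((b - 1) * (J b s * J b s))) s := by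
  obtain ⟨u, hu⟩ := (hb s hs).1
  have h1 : HasDerivAt (Mx b) (b - 1) s := by
    have := ((hasDerivAt_id s).smul_const (b - 1)).const_add (1 : C)
    rw [one_smul] at this
    exact this
  have h2 := hasFDerivAt_ringInverse (𝕜 := ℝ) u
  rw [hu] at h2
  have h3 := h2.comp_hasDerivAt s h1
  have h4 : J b s = ↑u⁻¹ := by unfold J; rw [← hu, Ring.inverse_unit]
  refine h3.congr_deriv ?_
  rw [h4]
  change -(↑u⁻¹ * (b - 1) * ↑u⁻¹) = _
  ring

lemma J_cont {m : ℝ} {b : C} (hb : Gd m b) : ContinuousOn (J b) (Icc 0 1) :=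
  fun _ hs => (J_hasDeriv hb hs).continuousAt.continuousWithinAt

/-- the logarithm -/
noncomputable def Lg (b : C) : C := (b - 1) * ∫ s in (0 : ℝ)..1, J b s

lemma Lg_one : Lg (1 : C) = 0 := by simp [Lg]

lemma uIcc01 : uIcc (0 : ℝ) 1 = Icc 0 1 := uIcc_of_le zero_le_one

lemma J_int {m : ℝ} {b : C} (hb : Gd m b) : IntervalIntegrable (J b) volume 0 1 := by
  apply ContinuousOn.intervalIntegrable
  rw [uIcc01]
  exact J_cont hb

lemma JJ_int {m m' : ℝ} {b c : C} (hb : Gd m b) (hc : Gd m' c) :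
    IntervalIntegrable (fun s => J b s * J c s) volume 0 1 := by
  apply ContinuousOn.intervalIntegrable
  rw [uIcc01]
  exact (J_cont hb).mul (J_cont hc)

lemma const_mul_int (x : C) (f : ℝ → C) (hf : IntervalIntegrable f volume 0 1) :
    x * ∫ s in (0 : ℝ)..1, f s = ∫ s in (0 : ℝ)..1, x * f s := by
  have := (ContinuousLinearMap.mul ℝ C x).intervalIntegral_comp_comm hf
  simpa using this.symm

lemma Lg_sub {m m' : ℝ} {b c : C} (hb : Gd m b) (hc : Gd m' c) :
    Lg c - Lg b = (c - b) * ∫ s in (0 : ℝ)..1, J b s * J c s := by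
  unfold Lg
  rw [const_mul_int _ _ (J_int hc), const_mul_int _ _ (J_int hb), const_mul_int _ _ (JJ_int hb hc),
    ← intervalIntegral.integral_sub]
  · apply intervalIntegral.integral_congr
    intro s hs
    rw [uIcc01] at hs
    exact lJ_sub hb hc hs
  · exact (J_int hc).continuousOn_mul continuousOn_const
  · exact (J_int hb).continuousOn_mul continuousOn_const

lemma int_JJ {m : ℝ} {b : C} (hb : Gd m b) :
    ∫ s in (0 : ℝ)..1, J b s * J b s = Ring.inverse b := by
  have h0 : ∀ s ∈ uIcc (0 : ℝ) 1, HasDerivAt (fun s : ℝ => s • J b s) (J b s * J b s) s := by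
    intro s hs
    rw [uIcc01] at hs
    have h1 := (hasDerivAt_id s).smul (J_hasDeriv hb hs)
    refine h1.congr_deriv ?_
    have h2 := J_mul hb hs
    unfold Mx at h2
    simp only [Algebra.smul_def, map_one, id] at *
    linear_combination (-J b s) * h2
  have h := intervalIntegral.integral_eq_sub_of_hasDerivAt h0 (JJ_int hb hb)
  rw [h, J_one]
  simp

lemma JJ_norm {m : ℝ} {b c : C} (hb : Gd m b) (hc : Gd m c) {s : ℝ} (hs : s ∈ Icc (0 : ℝ) 1) :
    ‖J b s * J c s - J b s * J b s‖ ≤ m ^ 3 * ‖c - b‖ := by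
  have h1 : J b s * J c s - J b s * J b s = -(J b s * (s • (c - b) * J b s * J c s)) := by
    rw [← mul_sub, J_sub hb hc hs]
    ring
  rw [h1, norm_neg]
  have hm := hb.pos
  have a1 := (hb s hs).2
  have a2 := (hc s hs).2
  have a3 : ‖s • (c - b)‖ ≤ ‖c - b‖ := by
    rw [norm_smul, Real.norm_eq_abs, abs_of_nonneg hs.1]
    exact mul_le_of_le_one_left (norm_nonneg _) hs.2
  calc ‖J b s * (s • (c - b) * J b s * J c s)‖
      ≤ ‖J b s‖ * (‖s • (c - b)‖ * ‖J b s‖ * ‖J c s‖) := by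
        refine (norm_mul_le _ _).trans (mul_le_mul_of_nonneg_left ?_ (norm_nonneg _))
        refine (norm_mul_le _ _).trans (mul_le_mul_of_nonneg_right ?_ (norm_nonneg _))
        exact norm_mul_le _ _
    _ ≤ m * (‖c - b‖ * m * m) := by
        gcongr
    _ = m ^ 3 * ‖c - b‖ := by ring

lemma Lg_quad {m : ℝ} {b c : C} (hb : Gd m b) (hc : Gd m c) :
    ‖Lg c - Lg b - (c - b) * Ring.inverse b‖ ≤ m ^ 3 * ‖c - b‖ ^ 2 := by
  rw [Lg_sub hb hc, ← int_JJ hb, ← mul_sub, ← intervalIntegral.integral_sub (JJ_int hb hc)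
    (JJ_int hb hb)]
  refine (norm_mul_le _ _).trans ?_
  have h := intervalIntegral.norm_integral_le_of_norm_le_const (a := 0) (b := 1)
    (C := m ^ 3 * ‖c - b‖) (f := fun s => J b s * J c s - J b s * J b s) (by
      intro s hs
      apply JJ_norm hb hc
      rw [← uIcc01]
      exact uIoc_subset_uIcc hs)
  simp only [sub_zero, abs_one, mul_one] at h
  calc ‖c - b‖ * ‖∫ s in (0 : ℝ)..1, (J b s * J c s - J b s * J b s)‖
      ≤ ‖c - b‖ * (m ^ 3 * ‖c - b‖) := mul_le_mul_of_nonneg_left h (norm_nonneg _)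
    _ = m ^ 3 * ‖c - b‖ ^ 2 := by ring

/-- from a quadratic estimate to derivatives along paths -/
lemma path_deriv {F : C → C} {G : Set C} {K : ℝ} {B : ℝ → C} {B' N : C} {S : Set ℝ} {τ : ℝ}
    (hF : ∀ c ∈ G, ‖F c - F (B τ) - (c - B τ) * N‖ ≤ K * ‖c - B τ‖ ^ 2)
    (hG : ∀ σ ∈ S, B σ ∈ G) (hB : HasDerivWithinAt B B' S τ) :
    HasDerivWithinAt (fun σ => F (B σ)) (B' * N) S τ := by
  have e : ∀ x, ((ContinuousLinearMap.mul ℝ C).flip N) x = x * N := fun x => rfl
  have h1 : HasFDerivWithinAt F ((ContinuousLinearMap.mul ℝ C).flip N) G (B τ) := by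
    rw [hasFDerivWithinAt_iff_isLittleO]
    have h2 : (fun c => F c - F (B τ) - ((ContinuousLinearMap.mul ℝ C).flip N) (c - B τ))
        =O[𝓝[G] (B τ)] fun c => ‖c - B τ‖ ^ 2 := by
      apply Asymptotics.IsBigO.of_bound K
      filter_upwards [self_mem_nhdsWithin] with c hc
      rw [Real.norm_eq_abs, abs_of_nonneg (by positivity), e]
      exact hF c hc
    refine h2.trans_isLittleO ?_
    have h3 : (fun c : C => ‖c - B τ‖ ^ 2) =o[𝓝 (B τ)] fun c => c - B τ := by
      have h4 := (Asymptotics.isLittleO_norm_pow_id (E' := C) one_lt_two).comp_tendsto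
        (k := fun c : C => c - B τ) (l' := 𝓝 (B τ)) (by
          have : Tendsto (fun c : C => c - B τ) (𝓝 (B τ)) (𝓝 (B τ - B τ)) :=
            (continuous_id.sub continuous_const).tendsto _
          simpa using this)
      exact h4
    exact h3.mono nhdsWithin_le_nhds
  exact h1.comp_hasDerivWithinAt τ hB hG

lemma Lg_path {m : ℝ} {B : ℝ → C} {B' : C} {S : Set ℝ} {τ : ℝ} (hτ : τ ∈ S)
    (hG : ∀ σ ∈ S, Gd m (B σ)) (hB : HasDerivWithinAt B B' S τ) :
    HasDerivWithinAt (fun σ => Lg (B σ)) (B' * Ring.inverse (B τ)) S τ :=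
  path_deriv (G := {c | Gd m c}) (fun _ hc => Lg_quad (hG τ hτ) hc) hG hB

end Pool.Agent.R815.Fp
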