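import Pool.Agent.R815.Fp.Pow

/-!
# Accretive elements
-/

namespace Pool.Agent.R815.Fp

set_option linter.unusedSectionVars false
set_option linter.unusedSimpArgs false

open Set MeasureTheory Filter Topology NormedSpace

variable {H : Type*} [NormedAddCommGroup H] [InnerProductSpace ℂ H] [FiniteDimensional ℂ H]
variable {C : Type*} [NormedCommRing C] [NormedAlgebra ℂ C] [CompleteSpace C]

/-- a faithful isometric inverse closed representation -/
structure Rep (π : C →ₐ[ℂ] (H →L[ℂ] H)) : Prop where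
  iso : ∀ b, ‖π b‖ = ‖b‖
  unit : ∀ b, IsUnit (π b) → IsUnit b

/-- accretive elements with lower bound `δ` -/
def Acc (π : C →ₐ[ℂ] (H →L[ℂ] H)) (δ : ℝ) (b : C) : Prop :=
  ∀ u : H, δ * ‖u‖ ^ 2 ≤ (inner ℂ u (π b u)).re

variable {π : C →ₐ[ℂ] (H →L[ℂ] H)}

/-- matrix coefficients -/
noncomputable def psi (hπ : Rep π) (u v : H) : C →L[ℂ] ℂ :=
  LinearMap.mkContinuous
    { toFun := fun b => inner ℂ u (π b v)
      map_add' := fun b c => by simp [map_add, inner_add_right]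
      map_smul' := fun z b => by simp [map_smul, inner_smul_right] }
    (‖u‖ * ‖v‖) (fun b => by
      change ‖inner ℂ u (π b v)‖ ≤ _
      calc ‖inner ℂ u (π b v)‖ ≤ ‖u‖ * ‖π b v‖ := norm_inner_le_norm _ _
        _ ≤ ‖u‖ * (‖π b‖ * ‖v‖) :=
          mul_le_mul_of_nonneg_left ((π b).le_opNorm v) (norm_nonneg _)
        _ = ‖u‖ * ‖v‖ * ‖b‖ := by rw [hπ.iso]; ring)

@[simp] lemma psi_apply (hπ : Rep π) (u v : H) (b : C) : psi hπ u v b = inner ℂ u (π b v) := rfl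

lemma Acc.mono {δ ε : ℝ} {b : C} (h : Acc π δ b) (he : ε ≤ δ) : Acc π ε b := fun u =>
  (mul_le_mul_of_nonneg_right he (by positivity)).trans (h u)

lemma Acc.add {δ ε : ℝ} {b c : C} (h : Acc π δ b) (h' : Acc π ε c) : Acc π (δ + ε) (b + c) := by
  intro u
  rw [map_add, add_apply, inner_add_right, Complex.add_re, add_mul]
  exact add_le_add (h u) (h' u)

lemma inner_self_re' (u : H) : (inner ℂ u u : ℂ) = ((‖u‖ ^ 2 : ℝ) : ℂ) := by
  rw [inner_self_eq_norm_sq_to_K]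
  push_cast
  rfl

lemma real_smul_eq (r : ℝ) (b : C) : r • b = (r : ℂ) • b := by
  rw [← Complex.coe_smul]

lemma Acc.smul {δ r : ℝ} {b : C} (h : Acc π δ b) (hr : 0 ≤ r) : Acc π (r * δ) (r • b) := by
  intro u
  rw [real_smul_eq, map_smul, smul_apply, inner_smul_right,
    Complex.re_ofReal_mul, mul_assoc]
  exact mul_le_mul_of_nonneg_left (h u) hr

lemma Acc_one : Acc π 1 (1 : C) := by
  intro u
  rw [map_one, one_apply_eq_self, inner_self_re', Complex.ofReal_re, one_mul]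

lemma Acc_algebraMap {z : ℂ} {δ : ℝ} (h : δ ≤ z.re) : Acc π δ (algebraMap ℂ C z) := by
  intro u
  rw [AlgHom.commutes, Algebra.algebraMap_eq_smul_one, smul_apply,
    one_apply_eq_self, inner_smul_right, inner_self_re', Complex.re_mul_ofReal]
  exact mul_le_mul_of_nonneg_right h (by positivity)

lemma Acc.le_norm {δ : ℝ} {b : C} (h : Acc π δ b) (u : H) : δ * ‖u‖ ≤ ‖π b u‖ := by
  rcases eq_or_ne u 0 with rfl | hu
  · simp
  · have hu' : 0 < ‖u‖ := norm_pos_iff.mpr hu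
    have h1 : (inner ℂ u (π b u)).re ≤ ‖u‖ * ‖π b u‖ :=
      (Complex.re_le_norm _).trans (norm_inner_le_norm _ _)
    have h2 := (h u).trans h1
    have h3 : ‖u‖ * (δ * ‖u‖) ≤ ‖u‖ * ‖π b u‖ := by
      calc ‖u‖ * (δ * ‖u‖) = δ * ‖u‖ ^ 2 := by ring
        _ ≤ _ := h2
    exact le_of_mul_le_mul_left h3 hu'

lemma Acc.isUnit (hπ : Rep π) {δ : ℝ} (hδ : 0 < δ) {b : C} (h : Acc π δ b) : IsUnit b := by
  apply hπ.unit
  have : CompleteSpace H := FiniteDimensional.complete ℂ H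
  rw [ContinuousLinearMap.isUnit_iff_bijective]
  have hinj : Function.Injective (π b) := by
    rw [injective_iff_map_eq_zero]
    intro u hu
    have := h.le_norm u
    rw [hu, norm_zero] at this
    have h2 : ‖u‖ ≤ 0 := by
      by_contra hc
      push Not at hc
      have := mul_pos hδ hc
      linarith
    exact norm_le_zero_iff.mp h2
  exact ⟨hinj, (LinearMap.injective_iff_surjective (f := (π b : H →ₗ[ℂ] H))).mp hinj⟩

lemma Acc.apply_inv (hπ : Rep π) {δ : ℝ} (hδ : 0 < δ) {b : C} (h : Acc π δ b) (u : H) :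
    π b (π (Ring.inverse b) u) = u := by
  rw [← mul_apply_eq_comp, ← map_mul, Ring.mul_inverse_cancel _ (h.isUnit hπ hδ),
    map_one, one_apply_eq_self]

lemma Acc.inv_norm (hπ : Rep π) {δ : ℝ} (hδ : 0 < δ) {b : C} (h : Acc π δ b) :
    ‖Ring.inverse b‖ ≤ 1 / δ := by
  rw [← hπ.iso]
  apply ContinuousLinearMap.opNorm_le_bound _ (by positivity)
  intro u
  have h1 := h.le_norm (π (Ring.inverse b) u)
  rw [h.apply_inv hπ hδ] at h1
  rw [one_div, inv_mul_eq_div, le_div_iff₀ hδ]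
  linarith

lemma Acc.inv_re (hπ : Rep π) {δ : ℝ} (hδ : 0 < δ) {b : C} (h : Acc π δ b) (u : H) :
    0 ≤ (inner ℂ u (π (Ring.inverse b) u)).re := by
  set v := π (Ring.inverse b) u with hv
  have h1 : u = π b v := (h.apply_inv hπ hδ u).symm
  have h2 := h v
  have h3 : (inner ℂ u v).re = (inner ℂ v u).re := by
    rw [← inner_conj_symm, Complex.conj_re]
  rw [h3, h1]
  exact le_trans (by positivity) h2

lemma Mx_eq (b : C) (s : ℝ) : Mx b s = (1 - s) • 1 + s • b := by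
  unfold Mx
  simp only [Algebra.smul_def, map_sub, map_one]
  ring

lemma Acc.seg {δ : ℝ} {b : C} (h : Acc π δ b) (h1 : δ ≤ 1) {s : ℝ} (hs : s ∈ Icc (0 : ℝ) 1) :
    Acc π δ (Mx b s) := by
  rw [Mx_eq]
  have a1 := (Acc_one (π := π)).smul (r := 1 - s) (by linarith [hs.2])
  have a2 := h.smul (r := s) hs.1
  refine (a1.add a2).mono ?_
  nlinarith [hs.1, hs.2]

lemma Acc.gd (hπ : Rep π) {δ : ℝ} (hδ : 0 < δ) (h1 : δ ≤ 1) {b : C} (h : Acc π δ b) :
    Gd (1 / δ) b := fun _ hs => ⟨(h.seg h1 hs).isUnit hπ hδ, (h.seg h1 hs).inv_norm hπ hδ⟩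

lemma Acc.bJ (hπ : Rep π) {δ : ℝ} (hδ : 0 < δ) (h1 : δ ≤ 1) {b : C} (h : Acc π δ b) {s : ℝ}
    (hs : s ∈ Icc (0 : ℝ) 1) : Acc π δ (b * J b s) := by
  intro u
  set v := π (J b s) u with hv
  have e1 : u = ((1 - s : ℝ) : ℂ) • v + ((s : ℝ) : ℂ) • π b v := by
    have := (h.seg h1 hs).apply_inv hπ hδ u
    have e : Ring.inverse (Mx b s) = J b s := rfl
    rw [e, ← hv, Mx_eq, map_add, real_smul_eq, real_smul_eq, map_smul, map_smul, map_one,
      add_apply, smul_apply,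
      smul_apply, one_apply_eq_self] at this
    exact this.symm
  have e2 : π (b * J b s) u = π b v := by
    rw [map_mul, mul_apply_eq_comp]
  rw [e2]
  set z := π b v with hz
  have e3 : (inner ℂ u z).re = (1 - s) * (inner ℂ v z).re + s * ‖z‖ ^ 2 := by
    rw [e1, inner_add_left, inner_smul_left, inner_smul_left, Complex.conj_ofReal,
      Complex.conj_ofReal, Complex.add_re, Complex.re_ofReal_mul, Complex.re_ofReal_mul,
      inner_self_re', Complex.ofReal_re]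
  have e4 : ‖u‖ ≤ (1 - s) * ‖v‖ + s * ‖z‖ := by
    calc ‖u‖ = ‖((1 - s : ℝ) : ℂ) • v + ((s : ℝ) : ℂ) • z‖ := by rw [← e1]
      _ ≤ ‖((1 - s : ℝ) : ℂ) • v‖ + ‖((s : ℝ) : ℂ) • z‖ := norm_add_le _ _
      _ = (1 - s) * ‖v‖ + s * ‖z‖ := by
        rw [norm_smul, norm_smul, Complex.norm_real, Complex.norm_real, Real.norm_eq_abs,
          Real.norm_eq_abs, abs_of_nonneg hs.1, abs_of_nonneg (by linarith [hs.2])]
  have e5 : ‖u‖ ^ 2 ≤ (1 - s) * ‖v‖ ^ 2 + s * ‖z‖ ^ 2 := by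
    have a1 : ‖u‖ ^ 2 ≤ ((1 - s) * ‖v‖ + s * ‖z‖) ^ 2 :=
      pow_le_pow_left₀ (norm_nonneg _) e4 2
    have a2 : 0 ≤ s * (1 - s) * (‖v‖ - ‖z‖) ^ 2 :=
      mul_nonneg (mul_nonneg hs.1 (by linarith [hs.2])) (sq_nonneg _)
    nlinarith
  have e6 := h v
  have e7 := hs.1
  have e8 : 0 ≤ 1 - s := by linarith [hs.2]
  rw [e3]
  calc δ * ‖u‖ ^ 2 ≤ δ * ((1 - s) * ‖v‖ ^ 2 + s * ‖z‖ ^ 2) := mul_le_mul_of_nonneg_left e5 hδ.le
    _ = (1 - s) * (δ * ‖v‖ ^ 2) + s * (δ * ‖z‖ ^ 2) := by ring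
    _ ≤ (1 - s) * (inner ℂ v z).re + s * ‖z‖ ^ 2 := by
      apply add_le_add
      · exact mul_le_mul_of_nonneg_left e6 e8
      · apply mul_le_mul_of_nonneg_left _ e7
        exact mul_le_of_le_one_left (by positivity) h1

/-- the real part of the diagonal coefficient, as a real functional -/
noncomputable def phi (hπ : Rep π) (u : H) : C →L[ℝ] ℝ :=
  Complex.reCLM.comp ((psi hπ u u).restrictScalars ℝ)

@[simp] lemma phi_apply (hπ : Rep π) (u : H) (b : C) : phi hπ u b = (inner ℂ u (π b u)).re := rfl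

lemma Acc.pw (hπ : Rep π) {δ : ℝ} (hδ : 0 < δ) (h1 : δ ≤ 1) {b : C} (h : Acc π δ b) {t : ℝ}
    (ht0 : 0 < t) (ht1 : t < 1) : Acc π δ (Pw t b) := by
  intro u
  have hgd := h.gd hπ hδ h1
  have hi := w_smul_int ht0 ht1 (bJ_cont hgd)
  have e1 : (inner ℂ u (π (Pw t b) u)).re = (Real.sin (Real.pi * t) / Real.pi)
      * ∫ s in (0 : ℝ)..1, w t s * (inner ℂ u (π (b * J b s) u)).re := by
    rw [← phi_apply hπ]
    unfold Pw
    rw [map_smul, ← (phi hπ u).intervalIntegral_comp_comm hi, smul_eq_mul]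
    congr 1
    apply intervalIntegral.integral_congr
    intro s _
    simp only
    rw [map_smul, smul_eq_mul, phi_apply]
  rw [e1]
  have hsin := sin_pos' ht0 ht1
  have hpi := Real.pi_pos
  have e2 : ∫ s in (0 : ℝ)..1, w t s * (δ * ‖u‖ ^ 2)
      ≤ ∫ s in (0 : ℝ)..1, w t s * (inner ℂ u (π (b * J b s) u)).re := by
    apply intervalIntegral.integral_mono_on zero_le_one
    · exact (w_int ht0 ht1).mul_const _
    · have i1 : IntervalIntegrable (fun s => phi hπ u (w t s • (b * J b s))) volume 0 1 :=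
        ⟨(phi hπ u).integrable_comp hi.1, (phi hπ u).integrable_comp hi.2⟩
      have e3 : (fun s => w t s * (inner ℂ u (π (b * J b s) u)).re)
          = fun s => phi hπ u (w t s • (b * J b s)) := by
        funext s
        rw [map_smul, smul_eq_mul, phi_apply]
      rw [e3]
      exact i1
    · intro s hs
      exact mul_le_mul_of_nonneg_left (h.bJ hπ hδ h1 hs u) (w_nonneg hs)
  rw [intervalIntegral.integral_mul_const, w_integral ht0 ht1] at e2
  calc δ * ‖u‖ ^ 2 = Real.sin (Real.pi * t) / Real.pi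
        * (Real.pi / Real.sin (Real.pi * t) * (δ * ‖u‖ ^ 2)) := by field_simp
    _ ≤ _ := mul_le_mul_of_nonneg_left e2 (by positivity)

lemma Acc.exp (hπ : Rep π) {δ : ℝ} (hδ : 0 < δ) (h1 : δ ≤ 1) {b : C} (h : Acc π δ b) {t : ℝ}
    (ht : t ∈ Icc (0 : ℝ) 1) : Acc π δ (exp (t • Lg b)) := by
  rcases eq_or_lt_of_le ht.1 with h0 | h0
  · rw [← h0, zero_smul, exp_zero]
    exact Acc_one.mono h1
  rcases eq_or_lt_of_le ht.2 with h2 | h2
  · rw [h2, one_smul, exp_Lg (h.gd hπ hδ h1)]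
    exact h
  rw [← Pw_eq h0 h2 (h.gd hπ hδ h1)]
  exact h.pw hπ hδ h1 h0 h2

/-- the logarithm of a fractional power -/
lemma Lg_exp_smul (hπ : Rep π) {δ : ℝ} (hδ : 0 < δ) (h1 : δ ≤ 1) {b : C} (h : Acc π δ b) {t : ℝ}
    (ht : t ∈ Icc (0 : ℝ) 1) : Lg (NormedSpace.exp (t • Lg b)) = t • Lg b := by
  apply Lg_exp (m := 1 / δ)
  intro τ hτ
  rw [smul_smul]
  exact (h.exp hπ hδ h1 ⟨mul_nonneg hτ.1 ht.1, mul_le_one₀ hτ.2 ht.1 ht.2⟩).gd hπ hδ h1

end Pool.Agent.R815.Fp
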