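import Pool.Agent.R815.Fp.Main

/-!
# Instantiation: the double commutant
-/

namespace Pool.Agent.R815.Fp

open Set MeasureTheory Filter Topology NormedSpace

variable {H : Type*} [NormedAddCommGroup H] [InnerProductSpace ℂ H] [FiniteDimensional ℂ H]

/-- matrix coefficients of fractional powers -/
lemma coeff_Pw {C : Type*} [NormedCommRing C] [NormedAlgebra ℂ C] [CompleteSpace C]
    {π : C →ₐ[ℂ] (H →L[ℂ] H)} (hπ : Rep π) {m t : ℝ} (ht0 : 0 < t) (ht1 : t < 1) {b : C}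
    (hg : Gd m b) (u v : H) :
    (inner ℂ u (π (Pw t b) v) : ℂ) = ((Real.sin (Real.pi * t) / Real.pi : ℝ) : ℂ) *
      ∫ s in Ioo (0 : ℝ) 1, ((w t s : ℝ) : ℂ) * inner ℂ u (π (b * J b s) v) := by
  have hi := w_smul_int ht0 ht1 (bJ_cont hg)
  have h1 := ((psi hπ u v).restrictScalars ℝ).intervalIntegral_comp_comm hi
  simp only [ContinuousLinearMap.coe_restrictScalars'] at h1
  rw [← psi_apply hπ]
  unfold Pw
  rw [real_smul_eq, map_smul, ← h1, smul_eq_mul, intervalIntegral.integral_of_le zero_le_one,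
    integral_Ioc_eq_integral_Ioo]
  congr 1
  apply setIntegral_congr_fun measurableSet_Ioo
  intro s _
  simp only
  rw [real_smul_eq, map_smul, smul_eq_mul, psi_apply]

/-- the double commutant -/
noncomputable def DC (T : H →L[ℂ] H) : Subalgebra ℂ (H →L[ℂ] H) :=
  Subalgebra.centralizer ℂ (Set.centralizer {T})

lemma mem_DC {T X : H →L[ℂ] H} : X ∈ DC T ↔ ∀ Y : H →L[ℂ] H, T * Y = Y * T → Y * X = X * Y := by
  unfold DC
  rw [Subalgebra.mem_centralizer_iff]
  constructor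
  · intro h Y hY
    apply h
    rw [Set.mem_centralizer_iff]
    intro m hm
    rw [Set.mem_singleton_iff.mp hm]
    exact hY
  · intro h Y hY
    apply h
    exact Set.mem_centralizer_iff.mp hY T rfl

lemma self_mem_DC (T : H →L[ℂ] H) : T ∈ DC T := mem_DC.mpr fun _ hY => hY.symm

lemma DC_comm {T X Y : H →L[ℂ] H} (hX : X ∈ DC T) (hY : Y ∈ DC T) : X * Y = Y * X := by
  rw [mem_DC] at hX hY
  have h1 : T * X = X * T := hX T rfl
  exact hY X h1

noncomputable instance instDC (T : H →L[ℂ] H) : NormedCommRing (DC T) :=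
  { (inferInstance : NormedRing (DC T)) with
    mul_comm := by
      rintro ⟨x, hx⟩ ⟨y, hy⟩
      exact Subtype.ext (DC_comm hx hy) }

noncomputable instance instDCalg (T : H →L[ℂ] H) : NormedAlgebra ℂ (DC T) := inferInstance

instance instDCcomplete (T : H →L[ℂ] H) : CompleteSpace (DC T) := FiniteDimensional.complete ℂ _

/-- the inclusion -/
noncomputable def incl (T : H →L[ℂ] H) : DC T →ₐ[ℂ] (H →L[ℂ] H) := (DC T).val

lemma incl_rep (T : H →L[ℂ] H) : Rep (incl T) where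
  iso := fun b => rfl
  unit := by
    intro b hb
    obtain ⟨u, hu⟩ := hb
    have hmem : (↑u⁻¹ : H →L[ℂ] H) ∈ DC T := by
      rw [mem_DC]
      intro Y hY
      have h1 : Y * (b : H →L[ℂ] H) = b * Y := mem_DC.mp b.2 Y hY
      have h2 : (u : H →L[ℂ] H) = b := hu
      rw [← h2] at h1
      calc Y * ↑u⁻¹ = ↑u⁻¹ * (↑u * Y) * ↑u⁻¹ := by
            rw [← mul_assoc, Units.inv_mul, one_mul]
        _ = ↑u⁻¹ * (Y * ↑u) * ↑u⁻¹ := by rw [h1]
        _ = ↑u⁻¹ * Y := by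
            rw [mul_assoc, mul_assoc, Units.mul_inv, mul_one]
    refine ⟨⟨b, ⟨_, hmem⟩, ?_, ?_⟩, rfl⟩
    · apply Subtype.ext
      change (b : H →L[ℂ] H) * ↑u⁻¹ = 1
      have h2 : (u : H →L[ℂ] H) = b := hu
      rw [← h2]
      exact Units.mul_inv u
    · apply Subtype.ext
      change ↑u⁻¹ * (b : H →L[ℂ] H) = 1
      have h2 : (u : H →L[ℂ] H) = b := hu
      rw [← h2]
      exact Units.inv_mul u

/-- the operator inequality -/
theorem main_op [Nontrivial H] {T : H →L[ℂ] H} {δ : ℝ} (hδ : 0 < δ) (hδ1 : δ ≤ 1)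
    (hT : ∀ u : H, δ * ‖u‖ ^ 2 ≤ (inner ℂ u (T u) : ℂ).re) {t : ℝ} (ht0 : 0 < t) (ht1 : t < 1) :
    nr T ^ t ≤ nr (incl T (Pw t (⟨T, self_mem_DC T⟩ : DC T))) := by
  have hb : Acc (incl T) δ (⟨T, self_mem_DC T⟩ : DC T) := hT
  exact nr_pow (incl_rep T) hδ hδ1 hb ht0 ht1

end Pool.Agent.R815.Fp
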