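import Pool.Agent.R815.Fp.Hilb

/-!
# Preparations for the key inequality
-/

namespace Pool.Agent.R815.Fp

set_option linter.unusedSectionVars false
set_option linter.unusedSimpArgs false

open Set MeasureTheory Filter Topology NormedSpace

variable {H : Type*} [NormedAddCommGroup H] [InnerProductSpace ℂ H] [FiniteDimensional ℂ H]
variable {C : Type*} [NormedCommRing C] [NormedAlgebra ℂ C] [CompleteSpace C]
variable {π : C →ₐ[ℂ] (H →L[ℂ] H)}

/-- complex segments -/
noncomputable def Bv (a : ℂ) (b : C) (v : ℂ) : C :=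
  algebraMap ℂ C (a * v) + (1 - algebraMap ℂ C v) * b

/-- the Taylor polynomial of `z log z` -/
noncomputable def Rv (a : ℂ) (b : C) (v : ℂ) : C := b * Lg (Bv a b v) + b - Bv a b v

lemma Bv_zero (a : ℂ) (b : C) : Bv a b 0 = b := by simp [Bv]
lemma Bv_one (a : ℂ) (b : C) : Bv a b 1 = algebraMap ℂ C a := by simp [Bv]

lemma Bv_path (a : ℂ) (b : C) {v : ℝ → ℂ} {v' : ℂ} {S : Set ℝ} {s : ℝ}
    (hv : HasDerivWithinAt v v' S s) :
    HasDerivWithinAt (fun σ => Bv a b (v σ))
      (algebraMap ℂ C v' * (algebraMap ℂ C a - b)) S s := by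
  have h1 : HasDerivWithinAt (fun σ => algebraMap ℂ C (v σ)) (algebraMap ℂ C v') S s :=
    (((algebraMapCLM ℂ C).restrictScalars ℝ).hasFDerivAt (x := v s)).comp_hasDerivWithinAt s hv
  have h2 : (fun σ => Bv a b (v σ)) = fun σ => algebraMap ℂ C a * algebraMap ℂ C (v σ)
      + (1 - algebraMap ℂ C (v σ)) * b := by
    funext σ
    unfold Bv
    rw [map_mul]
  rw [h2]
  have h3 := (h1.const_mul (algebraMap ℂ C a)).add ((h1.const_sub 1).mul_const b)
  refine h3.congr_deriv ?_
  ring

lemma Rv_path (a : ℂ) (b : C) {m : ℝ} {v : ℝ → ℂ} {v' : ℂ} {S : Set ℝ} {s : ℝ} (hs : s ∈ S)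
    (hG : ∀ σ ∈ S, Gd m (Bv a b (v σ))) (hv : HasDerivWithinAt v v' S s) :
    HasDerivWithinAt (fun σ => Rv a b (v σ))
      (-(algebraMap ℂ C (v s * v') * ((b - algebraMap ℂ C a)
        * (Ring.inverse (Bv a b (v s)) * (b - algebraMap ℂ C a))))) S s := by
  have h1 := Bv_path a b hv
  have h2 := ((Lg_path hs hG h1).const_mul b).add_const b |>.sub h1
  refine h2.congr_deriv ?_
  have h3 := (hG s hs).mul_inv
  have h4 : Bv a b (v s) = algebraMap ℂ C a * algebraMap ℂ C (v s)
      + (1 - algebraMap ℂ C (v s)) * b := by unfold Bv; rw [map_mul]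
  set I := Ring.inverse (Bv a b (v s)) with hI
  rw [h4] at h3
  rw [map_mul]
  linear_combination (algebraMap ℂ C v' * (algebraMap ℂ C a - b)) * h3

/-- a real quadratic inequality -/
lemma lin_zero {l q : ℝ} (h : ∀ τ : ℝ, 0 ≤ τ * l + τ ^ 2 * q) : l = 0 := by
  by_contra hl
  have hq : 0 ≤ |q| := abs_nonneg q
  have h1 := h (-(l / (|q| + 1)))
  have h2 : 0 < |q| + 1 := by positivity
  have h3 : -(l / (|q| + 1)) * l + (-(l / (|q| + 1))) ^ 2 * q
      = (l ^ 2 / (|q| + 1) ^ 2) * (q - (|q| + 1)) := by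
    field_simp
    ring
  rw [h3] at h1
  have h4 : 0 < l ^ 2 / (|q| + 1) ^ 2 := by positivity
  have h5 : q - (|q| + 1) < 0 := by linarith [le_abs_self q]
  have := mul_neg_of_pos_of_neg h4 h5
  linarith

/-- first order condition at a maximiser -/
lemma first_order {T : H →L[ℂ] H} {a e : ℂ} (he : e * (starRingEnd ℂ) e = 1) {ρ : ℝ}
    (hae : a = ρ * e) {x : H} (hx : ‖x‖ = 1) (hax : inner ℂ x (T x) = a)
    (hmax : ∀ u, ‖(inner ℂ u (T u) : ℂ)‖ ≤ ρ * ‖u‖ ^ 2) (u : H) :
    inner ℂ x (T u - a • u) = Complex.I * e * inner ℂ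
      ((-Complex.I * (starRingEnd ℂ) e) • (T x - a • x)) u := by
  set ec := (starRingEnd ℂ) e with hec
  have he2 : ec * e = 1 := by rw [mul_comm]; exact he
  have hen : ‖ec‖ = 1 := by
    rw [hec, Complex.norm_conj]
    have : ‖e * (starRingEnd ℂ) e‖ = 1 := by rw [he]; simp
    rw [norm_mul, Complex.norm_conj] at this
    nlinarith [norm_nonneg e]
  have hF : ∀ z : H, 0 ≤ ρ * ‖z‖ ^ 2 - (ec * inner ℂ z (T z)).re := by
    intro z
    have h1 : (ec * inner ℂ z (T z)).re ≤ ‖ec * inner ℂ z (T z)‖ := Complex.re_le_norm _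
    rw [norm_mul, hen, one_mul] at h1
    have := hmax z
    linarith
  -- linear coefficient
  have hlin : ∀ z : H, 2 * ρ * (inner ℂ x z : ℂ).re
      - (ec * (inner ℂ x (T z) + inner ℂ z (T x))).re = 0 := by
    intro z
    apply lin_zero (q := ρ * ‖z‖ ^ 2 - (ec * inner ℂ z (T z)).re)
    intro τ
    have h1 := hF (x + (τ : ℂ) • z)
    have h2 : ‖x + (τ : ℂ) • z‖ ^ 2 = 1 + 2 * τ * (inner ℂ x z : ℂ).re + τ ^ 2 * ‖z‖ ^ 2 := by
      rw [@norm_add_sq ℂ, hx, norm_smul, inner_smul_right]
      simp only [Complex.norm_real, Real.norm_eq_abs, mul_pow, sq_abs, one_pow]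
      have : RCLike.re ((τ : ℂ) * inner ℂ x z) = τ * (inner ℂ x z : ℂ).re :=
        Complex.re_ofReal_mul _ _
      rw [this]
      ring
    have h3 : inner ℂ (x + (τ : ℂ) • z) (T (x + (τ : ℂ) • z)) = a
        + (τ : ℂ) * (inner ℂ x (T z) + inner ℂ z (T x)) + ((τ ^ 2 : ℝ) : ℂ) * inner ℂ z (T z) := by
      rw [map_add, map_smul, inner_add_left, inner_add_right, inner_add_right, inner_smul_left,
        inner_smul_right, inner_smul_left, inner_smul_right, Complex.conj_ofReal, hax]
      push_cast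
      ring
    have h4 : ec * a = ρ := by rw [hae]; linear_combination (ρ : ℂ) * he2
    rw [h2, h3] at h1
    have h5 : ec * (a + (τ : ℂ) * (inner ℂ x (T z) + inner ℂ z (T x))
        + ((τ ^ 2 : ℝ) : ℂ) * inner ℂ z (T z)) = (ρ : ℂ)
        + (τ : ℂ) * (ec * (inner ℂ x (T z) + inner ℂ z (T x)))
        + ((τ ^ 2 : ℝ) : ℂ) * (ec * inner ℂ z (T z)) := by
      linear_combination h4
    rw [h5, Complex.add_re, Complex.add_re, Complex.re_ofReal_mul, Complex.re_ofReal_mul,
      Complex.ofReal_re] at h1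
    linarith
  -- real parts agree
  have hre : ∀ z : H, (ec * inner ℂ x (T z - a • z)).re
      = (Complex.I * inner ℂ ((-Complex.I * ec) • (T x - a • x)) z).re := by
    intro z
    have h1 := hlin z
    have h2 : ec * inner ℂ x (T z - a • z) = ec * inner ℂ x (T z) - ρ * inner ℂ x z := by
      rw [inner_sub_right, inner_smul_right, hae]
      linear_combination (-(ρ : ℂ) * inner ℂ x z) * he2
    have h3 : Complex.I * inner ℂ ((-Complex.I * ec) • (T x - a • x)) z
        = -(starRingEnd ℂ) (ec * inner ℂ z (T x)) + ρ * inner ℂ x z := by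
      rw [inner_smul_left, inner_sub_left, inner_smul_left, hae]
      simp only [map_mul, map_neg, Complex.conj_I, Complex.conj_ofReal, inner_conj_symm]
      rw [hec, Complex.conj_conj]
      have hI := Complex.I_mul_I
      linear_combination (e * inner ℂ (T x) z - e * (ρ * (starRingEnd ℂ) e) * inner ℂ x z) * hI
        + (ρ * inner ℂ x z) * he
    rw [h2, h3, Complex.sub_re, Complex.add_re, Complex.neg_re, Complex.conj_re]
    rw [mul_add, Complex.add_re] at h1
    rw [Complex.re_ofReal_mul]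
    linarith
  have hfull : ec * inner ℂ x (T u - a • u)
      = Complex.I * inner ℂ ((-Complex.I * ec) • (T x - a • x)) u := by
    apply Complex.ext (hre u)
    have h1 := hre (-Complex.I • u)
    rw [map_smul, smul_comm a, ← smul_sub, inner_smul_right, inner_smul_right] at h1
    have e1 : ∀ z : ℂ, (ec * (-Complex.I * z)).re = (ec * z).im := by
      intro z
      have : ec * (-Complex.I * z) = -Complex.I * (ec * z) := by ring
      rw [this]
      simp [Complex.mul_re]
    have e2 : ∀ z : ℂ, (Complex.I * (-Complex.I * z)).re = (Complex.I * z).im := by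
      intro z
      have : Complex.I * (-Complex.I * z) = -Complex.I * (Complex.I * z) := by ring
      rw [this]
      simp [Complex.mul_re]
    rw [e1, e2] at h1
    exact h1
  linear_combination e * hfull - (inner ℂ x (T u - a • u)) * he2

end Pool.Agent.R815.Fp
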