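import Pool.Agent.R815.Fp.Key1

/-!
# The key inequality
-/

namespace Pool.Agent.R815.Fp

set_option linter.unusedSectionVars false
set_option linter.unusedSimpArgs false

open Set MeasureTheory Filter Topology NormedSpace

variable {H : Type*} [NormedAddCommGroup H] [InnerProductSpace ℂ H] [FiniteDimensional ℂ H]
variable {C : Type*} [NormedCommRing C] [NormedAlgebra ℂ C] [CompleteSpace C]
variable {π : C →ₐ[ℂ] (H →L[ℂ] H)}

/-- the logarithm of a scalar -/
lemma Lg_scalar (hπ : Rep π) {a : ℂ} (ha : 0 < a.re) :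
    Lg (algebraMap ℂ C a) = algebraMap ℂ C (Complex.log a) := by
  have ha0 : a ≠ 0 := by rintro rfl; simp at ha
  have harg : |a.arg| < Real.pi / 2 := Complex.abs_arg_lt_pi_div_two_iff.mpr (Or.inl ha)
  have hcos : 0 < Real.cos a.arg := Real.cos_pos_of_mem_Ioo ⟨by linarith [(abs_lt.mp harg).1],
    (abs_lt.mp harg).2⟩
  set δ := Real.exp (-|Real.log ‖a‖|) * Real.cos a.arg with hδ
  have hδ0 : 0 < δ := mul_pos (Real.exp_pos _) hcos
  have hδ1 : δ ≤ 1 := by
    apply mul_le_one₀ _ hcos.le (Real.cos_le_one _)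
    rw [Real.exp_le_one_iff]
    linarith [abs_nonneg (Real.log ‖a‖)]
  have hexp : ∀ τ : ℝ, exp (τ • algebraMap ℂ C (Complex.log a))
      = algebraMap ℂ C (Complex.exp (τ * Complex.log a)) := by
    intro τ
    rw [real_smul_eq, Complex.exp_eq_exp_ℂ, algebraMap_exp_comm, map_mul, Algebra.smul_def]
  have h := Lg_exp (m := 1 / δ) (K := algebraMap ℂ C (Complex.log a)) (by
    intro τ hτ
    rw [hexp]
    apply Acc.gd hπ hδ0 hδ1
    apply Acc_algebraMap
    rw [Complex.exp_re]
    have e1 : ((τ : ℂ) * Complex.log a).re = τ * Real.log ‖a‖ := by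
      rw [Complex.re_ofReal_mul, Complex.log_re]
    have e2 : ((τ : ℂ) * Complex.log a).im = τ * a.arg := by
      rw [Complex.im_ofReal_mul, Complex.log_im]
    rw [e1, e2, hδ]
    apply mul_le_mul _ _ hcos.le (Real.exp_pos _).le
    · apply Real.exp_le_exp.mpr
      have h1 : |τ * Real.log ‖a‖| ≤ |Real.log ‖a‖| := by
        rw [abs_mul, abs_of_nonneg hτ.1]
        exact mul_le_of_le_one_left (abs_nonneg _) hτ.2
      linarith [neg_abs_le (τ * Real.log ‖a‖)]
    · rw [← Real.cos_abs a.arg, ← Real.cos_abs (τ * a.arg)]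
      apply Real.cos_le_cos_of_nonneg_of_le_pi (abs_nonneg _) (by linarith [Real.pi_pos])
      rw [abs_mul, abs_of_nonneg hτ.1]
      exact mul_le_of_le_one_left (abs_nonneg _) hτ.2)
  have h1 := hexp 1
  rw [one_smul, Complex.ofReal_one, one_mul, Complex.exp_log ha0] at h1
  rw [h1] at h
  exact h

/-- the functional along a path -/
lemma G_path (hπ : Rep π) {a e : ℂ} {b : C} {x y : H} {m : ℝ}
    (hy1 : π (b - algebraMap ℂ C a) x = (Complex.I * e) • y)
    (hy2 : ∀ u, inner ℂ x (π (b - algebraMap ℂ C a) u) = Complex.I * e * inner ℂ y u)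
    {ec : ℂ} (hec : ec * e = 1) {v : ℝ → ℂ} {v' : ℂ} {S : Set ℝ} {s : ℝ} (hs : s ∈ S)
    (hG : ∀ σ ∈ S, Gd m (Bv a b (v σ))) (hv : HasDerivWithinAt v v' S s) :
    HasDerivWithinAt (fun σ => (ec * inner ℂ x (π (Rv a b (v σ)) x)).re)
      ((v s * v' * e) * inner ℂ y (π (Ring.inverse (Bv a b (v s))) y)).re S s := by
  have h1 := Rv_path a b hs hG hv
  have h2 := (((psi hπ x x).restrictScalars ℝ).hasFDerivAt
    (x := Rv a b (v s))).comp_hasDerivWithinAt s h1
  have h3 := h2.const_mul ec
  have h4 := (Complex.reCLM.hasFDerivAt (x := ec * inner ℂ x (π (Rv a b (v s)) x))).comp_hasDerivWithinAt s h3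
  refine h4.congr_deriv ?_
  change (ec * inner ℂ x (π (-(algebraMap ℂ C (v s * v') * ((b - algebraMap ℂ C a)
        * (Ring.inverse (Bv a b (v s)) * (b - algebraMap ℂ C a))))) x)).re = _
  congr 1
  have h5 : π (-(algebraMap ℂ C (v s * v') * ((b - algebraMap ℂ C a)
        * (Ring.inverse (Bv a b (v s)) * (b - algebraMap ℂ C a))))) x
      = -((v s * v') • π (b - algebraMap ℂ C a) (π (Ring.inverse (Bv a b (v s)))
        (π (b - algebraMap ℂ C a) x))) := by
    rw [← Algebra.smul_def, map_neg, map_smul, map_mul π (b - algebraMap ℂ C a), map_mul π]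
    rfl
  rw [h5, inner_neg_right, inner_smul_right, hy2, hy1, map_smul, inner_smul_right]
  have hI := Complex.I_mul_I
  set q := inner ℂ y (π (Ring.inverse (Bv a b (v s))) y)
  linear_combination (-(ec * v s * v' * e * e * q)) * hI + (v s * v' * e * q) * hec

/-- positivity of rotated inverses -/
lemma inv_re_rot (hπ : Rep π) {z : ℂ} (hz : z ≠ 0) {δ : ℝ} (hδ : 0 < δ) {B : C} (hB : IsUnit B)
    (h : Acc π δ (z⁻¹ • B)) (y : H) : 0 ≤ (z * inner ℂ y (π (Ring.inverse B) y)).re := by
  have h1 := h.inv_re hπ hδ y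
  have h2 : Ring.inverse (z⁻¹ • B) = z • Ring.inverse B := by
    have hu := h.isUnit hπ hδ
    have e1 := Ring.mul_inverse_cancel _ hu
    have e2 := Ring.mul_inverse_cancel _ hB
    have e3 : z • (z⁻¹ • B) = B := by rw [smul_smul, mul_inv_cancel₀ hz, one_smul]
    have e4 : algebraMap ℂ C z * (z⁻¹ • B) = B := by rw [← Algebra.smul_def]; exact e3
    rw [Algebra.smul_def z (Ring.inverse B)]
    clear e3 h h1 hu
    generalize z⁻¹ • B = X at *
    linear_combination (algebraMap ℂ C z * Ring.inverse B) * e1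
      - Ring.inverse X * e2 - (Ring.inverse X * Ring.inverse B) * e4
  rw [h2, map_smul, smul_apply, inner_smul_right] at h1
  exact h1

/-- the key inequality -/
theorem key (hπ : Rep π) {δ : ℝ} (hδ : 0 < δ) (hδ1 : δ ≤ 1) {b : C} (hb : Acc π δ b) {a : ℂ}
    {x : H} (hx : ‖x‖ = 1) (hax : inner ℂ x (π b x) = a)
    (hmax : ∀ u, ‖(inner ℂ u (π b u) : ℂ)‖ ≤ ‖a‖ * ‖u‖ ^ 2) :
    ((starRingEnd ℂ) (a / ‖a‖) * inner ℂ x (π (b * Lg b) x)).re ≤ ‖a‖ * Real.log ‖a‖ := by
  -- the data of `a`
  have hare : 0 < a.re := by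
    have := hb x
    rw [hax, hx] at this
    linarith
  have ha0 : a ≠ 0 := by rintro rfl; simp at hare
  set ρ := ‖a‖ with hρ
  have hρ0 : 0 < ρ := norm_pos_iff.mpr ha0
  have hρc : (ρ : ℂ) ≠ 0 := by exact_mod_cast hρ0.ne'
  set e : ℂ := a / ρ with he
  set ec := (starRingEnd ℂ) e with hec
  have hae : a = ρ * e := by rw [he]; field_simp
  have hen : ‖e‖ = 1 := by
    rw [he, norm_div, Complex.norm_real, Real.norm_eq_abs, abs_of_pos hρ0]
    exact div_self hρ0.ne'
  have hee : e * ec = 1 := by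
    rw [hec, Complex.mul_conj, Complex.normSq_eq_norm_sq, hen]; simp
  have hee' : ec * e = 1 := by rw [mul_comm]; exact hee
  have hcr : 0 < e.re := by
    rw [he, Complex.div_ofReal_re]
    positivity
  -- half angle
  set h : ℂ := Complex.exp ((a.arg / 2 : ℝ) * Complex.I) with hh
  set c := Real.cos (a.arg / 2) with hc
  set d := Real.sin (a.arg / 2) with hd
  have hcd : c ^ 2 + d ^ 2 = 1 := Real.cos_sq_add_sin_sq _
  have hhre : h.re = c := by rw [hh, Complex.exp_ofReal_mul_I_re]
  have hhim : h.im = d := by rw [hh, Complex.exp_ofReal_mul_I_im]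
  have hh2 : h ^ 2 = e := by
    have h1 : (ρ : ℂ) * Complex.exp (a.arg * Complex.I) = a := Complex.norm_mul_exp_arg_mul_I a
    have h2 : h ^ 2 = Complex.exp (a.arg * Complex.I) := by
      rw [hh, ← Complex.exp_nat_mul]
      congr 1
      push_cast
      ring
    rw [h2, he, eq_div_iff hρc, mul_comm]
    exact h1
  have hhc : h * (starRingEnd ℂ) h = 1 := by
    rw [Complex.mul_conj, Complex.normSq_apply, hhre, hhim]
    have : c * c + d * d = 1 := by nlinarith
    rw [this]; simp
  have hc0 : 0 < c := by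
    have harg : |a.arg| < Real.pi / 2 := Complex.abs_arg_lt_pi_div_two_iff.mpr (Or.inl hare)
    have := abs_lt.mp harg
    exact Real.cos_pos_of_mem_Ioo ⟨by linarith, by linarith⟩
  have here : e.re = c ^ 2 - d ^ 2 := by
    rw [← hh2, sq, Complex.mul_re, hhre, hhim]; ring
  have heim : e.im = 2 * c * d := by
    rw [← hh2, sq, Complex.mul_im, hhre, hhim]; ring
  have hdc : |d| ≤ c := by
    rw [← abs_of_pos hc0, ← sq_le_sq]
    linarith
  have hS1 : |e.im| ≤ 1 := (Complex.abs_im_le_norm e).trans hen.le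
  -- the vector y
  set y : H := (-Complex.I * ec) • (π b x - a • x) with hy
  have hpa : ∀ u, π (b - algebraMap ℂ C a) u = π b u - a • u := by
    intro u
    rw [map_sub, AlgHom.commutes, Algebra.algebraMap_eq_smul_one, sub_apply, smul_apply,
      one_apply_eq_self]
  have hy1 : π (b - algebraMap ℂ C a) x = (Complex.I * e) • y := by
    rw [hpa, hy, smul_smul]
    have : Complex.I * e * (-Complex.I * ec) = 1 := by
      linear_combination (-(e * ec)) * Complex.I_mul_I + hee
    rw [this, one_smul]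
  have hy2 : ∀ u, inner ℂ x (π (b - algebraMap ℂ C a) u) = Complex.I * e * inner ℂ y u := by
    intro u
    rw [hpa]
    exact first_order hee hae hx hax hmax u
  -- first part of the path
  have hq : ∀ u : H, δ * ‖u‖ ^ 2 ≤ (inner ℂ u (π b u) : ℂ).re ∧
      |(inner ℂ u (π b u) : ℂ).im| ≤ ρ * ‖u‖ ^ 2 := fun u =>
    ⟨hb u, (Complex.abs_im_le_norm _).trans (hmax u)⟩
  have hA1 : ∀ s ∈ Icc (0 : ℝ) (1 / (2 * c)),
      Acc π (δ / 2) (Bv a b ((s : ℂ) * (starRingEnd ℂ) h)) := by
    intro s hs u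
    obtain ⟨q1, q2⟩ := hq u
    set q : ℂ := inner ℂ u (π b u) with hqd
    have hsc : s * c ≤ 1 / 2 := by
      have := mul_le_mul_of_nonneg_right hs.2 hc0.le
      have e1 : 1 / (2 * c) * c = 1 / 2 := by field_simp
      linarith
    have e1 : (inner ℂ u (π (Bv a b ((s : ℂ) * (starRingEnd ℂ) h)) u) : ℂ)
        = (ρ * s * h) * ((‖u‖ ^ 2 : ℝ) : ℂ) + (1 - (s : ℂ) * (starRingEnd ℂ) h) * q := by
      unfold Bv
      rw [map_add, AlgHom.commutes, add_apply, Algebra.algebraMap_eq_smul_one, smul_apply,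
        one_apply_eq_self, inner_add_right, inner_smul_right, inner_self_re', map_mul, map_sub,
        map_one, AlgHom.commutes, mul_apply_eq_comp, sub_apply, one_apply_eq_self,
        Algebra.algebraMap_eq_smul_one, smul_apply, one_apply_eq_self, inner_sub_right,
        inner_smul_right, ← hqd, hae, ← hh2]
      linear_combination (ρ * s * h * ((‖u‖ ^ 2 : ℝ) : ℂ)) * hhc
    have e2 : (ρ * s * h * ((‖u‖ ^ 2 : ℝ) : ℂ) + (1 - (s : ℂ) * (starRingEnd ℂ) h) * q).re
        = ρ * s * c * ‖u‖ ^ 2 + (1 - s * c) * q.re - s * d * q.im := by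
      simp only [Complex.add_re, Complex.mul_re, Complex.mul_im, Complex.ofReal_re,
        Complex.ofReal_im, Complex.sub_re, Complex.sub_im, Complex.one_re, Complex.one_im,
        Complex.conj_re, Complex.conj_im, hhre, hhim]
      ring
    rw [e1, e2]
    have hs0 := hs.1
    have hu0 : 0 ≤ ‖u‖ ^ 2 := by positivity
    have b1 : s * d * q.im ≤ s * (c * (ρ * ‖u‖ ^ 2)) := by
      have : d * q.im ≤ c * (ρ * ‖u‖ ^ 2) := by
        calc d * q.im ≤ |d * q.im| := le_abs_self _
          _ = |d| * |q.im| := abs_mul _ _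
          _ ≤ c * (ρ * ‖u‖ ^ 2) := mul_le_mul hdc q2 (abs_nonneg _) hc0.le
      calc s * d * q.im = s * (d * q.im) := by ring
        _ ≤ _ := mul_le_mul_of_nonneg_left this hs0
    have b2 : (1 / 2) * (δ * ‖u‖ ^ 2) ≤ (1 - s * c) * q.re := by
      have : 0 ≤ δ * ‖u‖ ^ 2 := by positivity
      exact mul_le_mul (by linarith) q1 this (by linarith)
    linarith
  -- second part of the path
  have hD : ∀ r ∈ Icc (0 : ℝ) 1, 1 ≤ Complex.normSq (1 + e * r) ∧
      Complex.normSq (1 + e * r) ≤ 4 := by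
    intro r hr
    have e1 : Complex.normSq (1 + e * r) = 1 + 2 * r * e.re + r ^ 2 := by
      have : Complex.normSq e = 1 := by rw [Complex.normSq_eq_norm_sq, hen]; norm_num
      rw [Complex.normSq_apply] at this ⊢
      simp only [Complex.add_re, Complex.one_re, Complex.add_im, Complex.one_im,
        Complex.re_mul_ofReal, Complex.im_mul_ofReal]
      linear_combination r ^ 2 * this
    have h1 : e.re ≤ 1 := (Complex.re_le_norm e).trans hen.le
    rw [e1]
    constructor
    · nlinarith [hr.1, mul_nonneg hr.1 hcr.le]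
    · nlinarith [hr.1, hr.2, mul_le_mul hr.2 h1 hcr.le zero_le_one]
  have hne : ∀ r ∈ Icc (0 : ℝ) 1, (1 + e * r : ℂ) ≠ 0 := by
    intro r hr h0
    have := (hD r hr).1
    rw [h0, map_zero] at this
    linarith
  have hB2 : ∀ r ∈ Icc (0 : ℝ) 1, ∀ u : H,
      (inner ℂ u (π (Bv a b (1 / (1 + e * r))) u) : ℂ)
        = (e / (1 + e * r)) * (((ρ * ‖u‖ ^ 2 : ℝ) : ℂ) + r * inner ℂ u (π b u)) := by
    intro r hr u
    have hn := hne r hr
    unfold Bv
    rw [map_add, AlgHom.commutes, add_apply, Algebra.algebraMap_eq_smul_one, smul_apply,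
      one_apply_eq_self, inner_add_right, inner_smul_right, inner_self_re', map_mul, map_sub,
      map_one, AlgHom.commutes, mul_apply_eq_comp, sub_apply, one_apply_eq_self,
      Algebra.algebraMap_eq_smul_one, smul_apply, one_apply_eq_self, inner_sub_right,
      inner_smul_right, hae]
    push_cast
    field_simp
    ring
  set δ2 := min 1 (ρ * e.re / 4) with hδ2
  have hδ20 : 0 < δ2 := lt_min one_pos (by positivity)
  have hA2 : ∀ r ∈ Icc (0 : ℝ) 1, Acc π δ2 (Bv a b (1 / (1 + e * r))) := by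
    intro r hr u
    obtain ⟨q1, q2⟩ := hq u
    rw [hB2 r hr u]
    set q : ℂ := inner ℂ u (π b u) with hqd
    obtain ⟨D1, D2⟩ := hD r hr
    have hn := hne r hr
    have e1 : e / (1 + e * r) = (e + r) / (Complex.normSq (1 + e * r) : ℂ) := by
      rw [Complex.normSq_eq_conj_mul_self, map_add, map_one, map_mul, Complex.conj_ofReal, ← hec]
      have hn' : (1 + ec * r : ℂ) ≠ 0 := by
        intro h0
        apply hn
        have := congrArg (starRingEnd ℂ) h0
        rw [map_add, map_one, map_mul, Complex.conj_ofReal, hec, Complex.conj_conj, map_zero] at this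
        exact this
      rw [div_eq_div_iff hn (mul_ne_zero hn' hn)]
      linear_combination ((1 + e * r) * r) * hee
    rw [e1]
    have e2 : ((e + r) / (Complex.normSq (1 + e * r) : ℂ)
        * (((ρ * ‖u‖ ^ 2 : ℝ) : ℂ) + r * q)).re
        = ((e.re + r) * (ρ * ‖u‖ ^ 2 + r * q.re) - e.im * (r * q.im))
          / Complex.normSq (1 + e * r) := by
      rw [div_mul_eq_mul_div, Complex.div_ofReal_re]
      congr 1
      simp only [Complex.add_re, Complex.mul_re, Complex.add_im, Complex.mul_im,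
        Complex.ofReal_re, Complex.ofReal_im]
      ring
    rw [e2, le_div_iff₀ (by linarith)]
    have hr0 := hr.1
    have hu0 : 0 ≤ ‖u‖ ^ 2 := by positivity
    have b1 : e.im * (r * q.im) ≤ r * (ρ * ‖u‖ ^ 2) := by
      calc e.im * (r * q.im) = r * (e.im * q.im) := by ring
        _ ≤ r * (1 * (ρ * ‖u‖ ^ 2)) := by
          apply mul_le_mul_of_nonneg_left _ hr0
          calc e.im * q.im ≤ |e.im * q.im| := le_abs_self _
            _ = |e.im| * |q.im| := abs_mul _ _
            _ ≤ _ := mul_le_mul hS1 q2 (abs_nonneg _) zero_le_one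
        _ = _ := by ring
    have b2 : 0 ≤ (e.re + r) * (r * q.re) := by
      have : 0 ≤ q.re := le_trans (by positivity) q1
      positivity
    have b3 : δ2 * ‖u‖ ^ 2 * Complex.normSq (1 + e * r) ≤ ρ * e.re * ‖u‖ ^ 2 := by
      have c1 : δ2 ≤ ρ * e.re / 4 := min_le_right _ _
      calc δ2 * ‖u‖ ^ 2 * Complex.normSq (1 + e * r)
          ≤ (ρ * e.re / 4) * ‖u‖ ^ 2 * 4 := by
            apply mul_le_mul _ D2 (by linarith) (by positivity)
            exact mul_le_mul_of_nonneg_right c1 hu0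
        _ = _ := by ring
    nlinarith
  -- first monotonicity
  have hlog := Lg_scalar (C := C) hπ hare
  set g : ℂ → ℝ := fun v => (ec * inner ℂ x (π (Rv a b v) x)).re with hg
  have hstar : 0 ≤ 1 / (2 * c) := by positivity
  have hmono : MonotoneOn (fun s : ℝ => g ((s : ℂ) * (starRingEnd ℂ) h)) (Icc 0 (1 / (2 * c))) := by
    have hder : ∀ s ∈ Icc (0 : ℝ) (1 / (2 * c)), ∀ S : Set ℝ, s ∈ S → S ⊆ Icc 0 (1 / (2 * c)) →
        HasDerivWithinAt (fun s : ℝ => g ((s : ℂ) * (starRingEnd ℂ) h))
          (((s : ℂ) * (starRingEnd ℂ) h * (starRingEnd ℂ) h * e) * inner ℂ y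
            (π (Ring.inverse (Bv a b ((s : ℂ) * (starRingEnd ℂ) h))) y)).re S s := by
      intro s _ S hsS hS
      apply G_path hπ hy1 hy2 hee' (m := 1 / (δ / 2)) hsS
      · intro σ hσ
        exact (hA1 σ (hS hσ)).gd hπ (by linarith) (by linarith)
      · have h1 : HasDerivAt (fun s : ℝ => (s : ℂ) * (starRingEnd ℂ) h)
            (1 * (starRingEnd ℂ) h) s := (Complex.ofRealCLM.hasDerivAt (x := s)).mul_const _
        rw [one_mul] at h1
        exact h1.hasDerivWithinAt
    apply monotoneOn_of_hasDerivWithinAt_nonneg (convex_Icc _ _)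
      (f' := fun s : ℝ => (((s : ℂ) * (starRingEnd ℂ) h * (starRingEnd ℂ) h * e) * inner ℂ y
            (π (Ring.inverse (Bv a b ((s : ℂ) * (starRingEnd ℂ) h))) y)).re)
    · intro s hs
      exact (hder s hs _ hs subset_rfl).continuousWithinAt
    · intro s hs
      exact hder s (interior_subset hs) _ hs interior_subset
    · intro s hs
      have hs' := interior_subset hs
      have h1 : ((s : ℂ) * (starRingEnd ℂ) h * (starRingEnd ℂ) h * e) = s := by
        rw [← hh2]
        linear_combination ((s : ℂ) * (1 + h * (starRingEnd ℂ) h)) * hhc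
      rw [h1, Complex.re_ofReal_mul]
      exact mul_nonneg hs'.1 ((hA1 s hs').inv_re hπ (by linarith) y)
  -- second monotonicity
  have hanti : AntitoneOn (fun r : ℝ => g (1 / (1 + e * r))) (Icc 0 1) := by
    have hder : ∀ r ∈ Icc (0 : ℝ) 1, ∀ S : Set ℝ, r ∈ S → S ⊆ Icc 0 1 →
        HasDerivWithinAt (fun r : ℝ => g (1 / (1 + e * r)))
          ((1 / (1 + e * r) * (-e / (1 + e * r) ^ 2) * e) * inner ℂ y
            (π (Ring.inverse (Bv a b (1 / (1 + e * r)))) y)).re S r := by
      intro r hr S hrS hS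
      apply G_path hπ hy1 hy2 hee' (m := 1 / δ2) (v := fun r : ℝ => 1 / (1 + e * r)) hrS
      · intro σ hσ
        exact (hA2 σ (hS hσ)).gd hπ hδ20 (min_le_left _ _)
      · have h1 : HasDerivAt (fun r : ℝ => 1 + e * (r : ℂ)) (e * 1) r :=
          ((Complex.ofRealCLM.hasDerivAt (x := r)).const_mul e).const_add 1
        rw [mul_one] at h1
        have h2 := h1.inv (hne r hr)
        have h3 : (fun r : ℝ => 1 / (1 + e * (r : ℂ))) = (fun r : ℝ => 1 + e * (r : ℂ))⁻¹ := by
          funext r
          simp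
        rw [h3]
        exact h2.hasDerivWithinAt
    apply antitoneOn_of_hasDerivWithinAt_nonpos (convex_Icc _ _)
      (f' := fun r : ℝ => ((1 / (1 + e * r) * (-e / (1 + e * r) ^ 2) * e) * inner ℂ y
            (π (Ring.inverse (Bv a b (1 / (1 + e * r)))) y)).re)
    · intro s hs
      exact (hder s hs _ hs subset_rfl).continuousWithinAt
    · intro s hs
      exact hder s (interior_subset hs) _ hs interior_subset
    · intro r hr
      have hr' := interior_subset hr
      have hn := hne r hr'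
      have he0 : e ≠ 0 := by
        intro h0
        rw [h0, norm_zero] at hen
        exact zero_ne_one hen
      set z : ℂ := e ^ 2 / (1 + e * r) ^ 3 with hz
      have hz0 : z ≠ 0 := div_ne_zero (pow_ne_zero _ he0) (pow_ne_zero _ hn)
      have h1 : (1 / (1 + e * r) * (-e / (1 + e * r) ^ 2) * e) = -z := by
        rw [hz]
        field_simp
      rw [h1, neg_mul, Complex.neg_re, neg_nonpos]
      apply inv_re_rot hπ hz0 (δ := ρ * e.re) (by positivity)
        ((hA2 r hr').isUnit hπ hδ20)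
      intro u
      obtain ⟨q1, q2⟩ := hq u
      rw [map_smul, smul_apply, inner_smul_right, hB2 r hr' u]
      set q : ℂ := inner ℂ u (π b u) with hqd
      have e1 : z⁻¹ * (e / (1 + e * r) * (((ρ * ‖u‖ ^ 2 : ℝ) : ℂ) + r * q))
          = (ec + 2 * r + r ^ 2 * e) * (((ρ * ‖u‖ ^ 2 : ℝ) : ℂ) + r * q) := by
        have e2 : z⁻¹ * (e / (1 + e * r)) = ec + 2 * r + r ^ 2 * e := by
          rw [hz, inv_div, div_mul_div_comm, div_eq_iff (mul_ne_zero (pow_ne_zero _ he0) hn)]
          linear_combination (-(1 + e * r) * e) * hee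
        rw [← mul_assoc, e2]
      rw [e1]
      have e3 : ((ec + 2 * r + r ^ 2 * e) * (((ρ * ‖u‖ ^ 2 : ℝ) : ℂ) + r * q)).re
          = ((1 + r ^ 2) * e.re + 2 * r) * (ρ * ‖u‖ ^ 2 + r * q.re)
            + (1 - r ^ 2) * e.im * (r * q.im) := by
        rw [hec]
        have : ((r : ℂ) ^ 2) = ((r ^ 2 : ℝ) : ℂ) := by push_cast; rfl
        rw [this]
        simp only [Complex.add_re, Complex.mul_re, Complex.add_im, Complex.mul_im,
          Complex.ofReal_re, Complex.ofReal_im, Complex.conj_re, Complex.conj_im,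
          Complex.re_ofNat, Complex.im_ofNat]
        ring
      rw [e3]
      have hr0 := hr'.1
      have hr1 := hr'.2
      have hu0 : 0 ≤ ρ * ‖u‖ ^ 2 := by positivity
      have hrr : 0 ≤ 1 - r ^ 2 := by nlinarith
      have b1 : -(r * (ρ * ‖u‖ ^ 2)) ≤ (1 - r ^ 2) * e.im * (r * q.im) := by
        have c1 : |(1 - r ^ 2) * e.im * (r * q.im)| ≤ 1 * 1 * (r * (ρ * ‖u‖ ^ 2)) := by
          rw [abs_mul, abs_mul, abs_mul, abs_of_nonneg hrr, abs_of_nonneg hr0]
          apply mul_le_mul _ (mul_le_mul_of_nonneg_left q2 hr0) (by positivity) (by norm_num)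
          exact mul_le_mul (by nlinarith) hS1 (abs_nonneg _) (by norm_num)
        have := (abs_le.mp c1).1
        linarith
      have b2 : 0 ≤ ((1 + r ^ 2) * e.re + 2 * r) * (r * q.re) := by
        have : 0 ≤ q.re := le_trans (by positivity) q1
        positivity
      have b3 : 0 ≤ r ^ 2 * e.re * (ρ * ‖u‖ ^ 2) := by positivity
      have b4 : 0 ≤ r * (ρ * ‖u‖ ^ 2) := mul_nonneg hr0 hu0
      nlinarith
  -- the junction
  have hjoin : ((1 / (2 * c) : ℝ) : ℂ) * (starRingEnd ℂ) h = 1 / (1 + e * ((1 : ℝ) : ℂ)) := by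
    have h1 : 1 + e * ((1 : ℝ) : ℂ) = 2 * c * h := by
      have h2 : (h + (starRingEnd ℂ) h) = 2 * c := by
        rw [Complex.add_conj, hhre]
        push_cast
        ring
      rw [← h2, ← hh2]
      push_cast
      linear_combination (-1 : ℂ) * hhc
    have hcc : (c : ℂ) ≠ 0 := by exact_mod_cast hc0.ne'
    have hh0 : h ≠ 0 := by
      intro h0
      rw [h0, zero_mul] at hhc
      exact zero_ne_one hhc
    rw [h1]
    push_cast
    field_simp
    linear_combination hhc
  have s1 := hmono (left_mem_Icc.mpr hstar) (right_mem_Icc.mpr hstar) hstar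
  have s2 := hanti (left_mem_Icc.mpr zero_le_one) (right_mem_Icc.mpr zero_le_one) zero_le_one
  simp only at s1 s2
  rw [hjoin] at s1
  have s3 := s1.trans s2
  simp only [Complex.ofReal_zero, zero_mul, mul_zero, add_zero, div_one] at s3
  rw [hg] at s3
  simp only at s3
  have r0 : Rv a b 0 = b * Lg b := by
    unfold Rv
    rw [Bv_zero]
    ring
  have r1 : Rv a b 1 = b * algebraMap ℂ C (Complex.log a) + b - algebraMap ℂ C a := by
    unfold Rv
    rw [Bv_one, hlog]
  rw [r0, r1] at s3
  refine s3.trans (le_of_eq ?_)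
  have f1 : inner ℂ x (π (b * algebraMap ℂ C (Complex.log a) + b - algebraMap ℂ C a) x)
      = a * Complex.log a := by
    rw [map_sub, map_add, map_mul, AlgHom.commutes, AlgHom.commutes, sub_apply, add_apply,
      mul_apply_eq_comp, Algebra.algebraMap_eq_smul_one, Algebra.algebraMap_eq_smul_one,
      smul_apply, smul_apply, one_apply_eq_self, map_smul, inner_sub_right, inner_add_right,
      inner_smul_right, inner_smul_right, hax, inner_self_re', hx]
    push_cast
    ring
  have f2 : ec * (a * Complex.log a) = ρ * Complex.log a := by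
    rw [hae]
    linear_combination (ρ * Complex.log (ρ * e)) * hee'
  rw [f1, f2, Complex.re_ofReal_mul, Complex.log_re]

end Pool.Agent.R815.Fp
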