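import Pool.Agent.R815.Fp.Key2

/-!
# Numerical radius of fractional powers
-/

namespace Pool.Agent.R815.Fp

set_option linter.unusedSectionVars false
set_option linter.unusedSimpArgs false

open Set MeasureTheory Filter Topology NormedSpace

variable {H : Type*} [NormedAddCommGroup H] [InnerProductSpace ℂ H] [FiniteDimensional ℂ H]
  [Nontrivial H]

/-- numerical radius -/
noncomputable def nr (T : H →L[ℂ] H) : ℝ :=
  sSup ((fun u : H => ‖(inner ℂ u (T u) : ℂ)‖) '' Metric.sphere 0 1)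

lemma nr_bdd (T : H →L[ℂ] H) :
    BddAbove ((fun u : H => ‖(inner ℂ u (T u) : ℂ)‖) '' Metric.sphere 0 1) := by
  refine ⟨‖T‖, ?_⟩
  rintro _ ⟨u, hu, rfl⟩
  rw [mem_sphere_zero_iff_norm] at hu
  calc ‖(inner ℂ u (T u) : ℂ)‖ ≤ ‖u‖ * ‖T u‖ := norm_inner_le_norm _ _
    _ ≤ ‖u‖ * (‖T‖ * ‖u‖) := mul_le_mul_of_nonneg_left (T.le_opNorm u) (norm_nonneg _)
    _ = ‖T‖ := by rw [hu]; ring

lemma sphere_nonempty' : (Metric.sphere (0 : H) 1).Nonempty := by
  have : NormedSpace ℝ H := NormedSpace.restrictScalars ℝ ℂ H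
  obtain ⟨x, hx⟩ := exists_ne (0 : H)
  refine ⟨((‖x‖ : ℂ)⁻¹) • x, ?_⟩
  rw [mem_sphere_zero_iff_norm, norm_smul, norm_inv, Complex.norm_real, norm_norm]
  exact inv_mul_cancel₀ (norm_ne_zero_iff.mpr hx)

lemma nr_attained (T : H →L[ℂ] H) : ∃ x : H, ‖x‖ = 1 ∧ ‖(inner ℂ x (T x) : ℂ)‖ = nr T := by
  have hc : IsCompact (Metric.sphere (0 : H) 1) := by
    have : ProperSpace H := FiniteDimensional.proper ℂ H
    exact isCompact_sphere 0 1
  have hcont : ContinuousOn (fun u : H => ‖(inner ℂ u (T u) : ℂ)‖) (Metric.sphere 0 1) := by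
    fun_prop
  obtain ⟨x, hx, hmax⟩ := hc.exists_sSup_image_eq sphere_nonempty' hcont
  exact ⟨x, mem_sphere_zero_iff_norm.mp hx, hmax.symm⟩

lemma le_nr_unit (T : H →L[ℂ] H) {u : H} (hu : ‖u‖ = 1) : ‖(inner ℂ u (T u) : ℂ)‖ ≤ nr T :=
  le_csSup (nr_bdd T) ⟨u, mem_sphere_zero_iff_norm.mpr hu, rfl⟩

lemma le_nr (T : H →L[ℂ] H) (u : H) : ‖(inner ℂ u (T u) : ℂ)‖ ≤ nr T * ‖u‖ ^ 2 := by
  rcases eq_or_ne u 0 with rfl | hu
  · simp
  · have hn : 0 < ‖u‖ := norm_pos_iff.mpr hu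
    have h1 : ‖((‖u‖ : ℂ)⁻¹) • u‖ = 1 := by
      rw [norm_smul, norm_inv, Complex.norm_real, norm_norm]
      exact inv_mul_cancel₀ hn.ne'
    have h2 := le_nr_unit T h1
    rw [map_smul, inner_smul_left, inner_smul_right, norm_mul, norm_mul, Complex.norm_conj,
      norm_inv, Complex.norm_real, norm_norm] at h2
    have h3 : ‖u‖⁻¹ * (‖u‖⁻¹ * ‖(inner ℂ u (T u) : ℂ)‖) = ‖(inner ℂ u (T u) : ℂ)‖ / ‖u‖ ^ 2 := by
      field_simp
    rw [h3, div_le_iff₀ (by positivity)] at h2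
    exact h2

lemma nr_lip (T S : H →L[ℂ] H) : nr T ≤ nr S + ‖T - S‖ := by
  obtain ⟨x, hx, hx2⟩ := nr_attained T
  rw [← hx2]
  have h1 : inner ℂ x (T x) = inner ℂ x (S x) + inner ℂ x ((T - S) x) := by
    rw [← inner_add_right]
    congr 1
    simp
  rw [h1]
  refine (norm_add_le _ _).trans (add_le_add (le_nr_unit S hx) ?_)
  calc ‖(inner ℂ x ((T - S) x) : ℂ)‖ ≤ ‖x‖ * ‖(T - S) x‖ := norm_inner_le_norm _ _
    _ ≤ ‖x‖ * (‖T - S‖ * ‖x‖) := mul_le_mul_of_nonneg_left ((T - S).le_opNorm x) (norm_nonneg _)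
    _ = ‖T - S‖ := by rw [hx]; ring

lemma nr_cont : Continuous (nr : (H →L[ℂ] H) → ℝ) := by
  have : LipschitzWith 1 (nr : (H →L[ℂ] H) → ℝ) := by
    apply LipschitzWith.of_dist_le_mul
    intro T S
    rw [Real.dist_eq, dist_eq_norm, NNReal.coe_one, one_mul, abs_le]
    constructor
    · have := nr_lip S T
      rw [norm_sub_rev] at this
      linarith
    · have := nr_lip T S
      linarith
  exact this.continuous

variable {C : Type*} [NormedCommRing C] [NormedAlgebra ℂ C] [CompleteSpace C]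
variable {π : C →ₐ[ℂ] (H →L[ℂ] H)}

lemma Acc.nr_pos {δ : ℝ} (hδ : 0 < δ) {b : C} (h : Acc π δ b) : 0 < nr (π b) := by
  obtain ⟨x, hx⟩ := sphere_nonempty' (H := H)
  rw [mem_sphere_zero_iff_norm] at hx
  have h1 := h x
  rw [hx] at h1
  have h2 := (Complex.re_le_norm (inner ℂ x (π b x))).trans (le_nr_unit (π b) hx)
  linarith

/-- the logarithmic slope -/
noncomputable def qf (π : C →ₐ[ℂ] (H →L[ℂ] H)) (b : C) (t : ℝ) : ℝ :=
  Real.log (nr (π (exp (t • Lg b)))) / t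

lemma qf_left (hπ : Rep π) {δ : ℝ} (hδ : 0 < δ) (hδ1 : δ ≤ 1) {b : C} (hb : Acc π δ b) {t : ℝ}
    (ht0 : 0 < t) (ht1 : t ≤ 1) {ε : ℝ} (hε : 0 < ε) :
    ∀ᶠ τ in 𝓝[<] t, qf π b t - ε * (t - τ) ≤ qf π b τ := by
  set Bt := exp (t • Lg b) with hBt
  have hAcc : Acc π δ Bt := hb.exp hπ hδ hδ1 ⟨ht0.le, ht1⟩
  obtain ⟨x, hx, hx2⟩ := nr_attained (π Bt)
  set a : ℂ := inner ℂ x (π Bt x) with ha
  have hv0 : 0 < ‖a‖ := by rw [hx2]; exact hAcc.nr_pos hδ
  have hkey := key hπ hδ hδ1 hAcc hx ha.symm (fun u => by rw [hx2]; exact le_nr _ u)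
  rw [Lg_exp_smul hπ hδ hδ1 hb ⟨ht0.le, ht1⟩] at hkey
  set ec := (starRingEnd ℂ) (a / ‖a‖) with hec
  have hecn : ‖ec‖ = 1 := by
    rw [hec, Complex.norm_conj, norm_div, Complex.norm_real, norm_norm]
    exact div_self hv0.ne'
  have heca : ec * a = ‖a‖ := by
    rw [hec, map_div₀, Complex.conj_ofReal, div_mul_eq_mul_div, mul_comm, Complex.mul_conj,
      Complex.normSq_eq_norm_sq]
    have : (‖a‖ : ℂ) ≠ 0 := by exact_mod_cast hv0.ne'
    push_cast
    field_simp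
  set h : ℝ → ℝ := fun τ => (ec * inner ℂ x (π (exp (τ • Lg b)) x)).re with hh
  have hht : h t = ‖a‖ := by
    rw [hh]
    simp only
    rw [← hBt, ← ha, heca, Complex.ofReal_re]
  have hle : ∀ τ, h τ ≤ nr (π (exp (τ • Lg b))) := by
    intro τ
    refine (Complex.re_le_norm _).trans ?_
    rw [norm_mul, hecn, one_mul]
    exact le_nr_unit _ hx
  have hder : HasDerivAt h ((ec * inner ℂ x (π (Bt * Lg b) x)).re) t := by
    have a1 : HasDerivAt (fun τ : ℝ => τ • Lg b) (Lg b) t := by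
      have := (hasDerivAt_id t).smul_const (Lg b)
      rw [one_smul] at this
      exact this
    have a2 := (hasFDerivAt_exp (𝕂 := ℝ) (x := t • Lg b)).comp_hasDerivAt t a1
    have a3 := (((psi hπ x x).restrictScalars ℝ).hasFDerivAt
      (x := exp (t • Lg b))).comp_hasDerivAt t a2
    have a4 := a3.const_mul ec
    exact (Complex.reCLM.hasFDerivAt (x := ec * inner ℂ x (π (exp (t • Lg b)) x))).comp_hasDerivAt t a4
  set h' := (ec * inner ℂ x (π (Bt * Lg b) x)).re with hh'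
  have hh'le : t * h' ≤ ‖a‖ * Real.log ‖a‖ := by
    have e1 : ec * inner ℂ x (π (Bt * t • Lg b) x) = (t : ℂ) * (ec * inner ℂ x (π (Bt * Lg b) x)) := by
      rw [mul_smul_comm, real_smul_eq, map_smul, smul_apply, inner_smul_right]
      ring
    rw [e1, Complex.re_ofReal_mul] at hkey
    exact hkey
  -- the comparison function
  have hQ : HasDerivAt (fun τ => Real.log (h τ) / τ)
      ((h' / h t * t - Real.log (h t) * 1) / t ^ 2) t :=
    (hder.log (by rw [hht]; exact hv0.ne')).div (hasDerivAt_id t) ht0.ne'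
  have hQ' : (h' / h t * t - Real.log (h t) * 1) / t ^ 2 ≤ 0 := by
    apply div_nonpos_of_nonpos_of_nonneg _ (by positivity)
    rw [hht]
    have : h' / ‖a‖ * t ≤ Real.log ‖a‖ := by
      rw [div_mul_eq_mul_div, div_le_iff₀ hv0]
      linarith
    linarith
  have hslope := hQ.tendsto_slope
  have h1 : ∀ᶠ τ in 𝓝[≠] t, slope (fun τ => Real.log (h τ) / τ) t τ < ε :=
    hslope.eventually_lt_const (lt_of_le_of_lt hQ' hε)
  have h2 : ∀ᶠ τ in 𝓝[<] t, slope (fun τ => Real.log (h τ) / τ) t τ < ε :=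
    h1.filter_mono (nhdsWithin_mono _ fun τ (hτ : τ < t) => ne_of_lt hτ)
  have h3 : ∀ᶠ τ in 𝓝[<] t, 0 < h τ := by
    have : ∀ᶠ τ in 𝓝 t, 0 < h τ := by
      apply hder.continuousAt.eventually (lt_mem_nhds _)
      rw [hht]
      exact hv0
    exact this.filter_mono nhdsWithin_le_nhds
  have h4 : ∀ᶠ τ in 𝓝[<] t, 0 < τ :=
    (lt_mem_nhds ht0).filter_mono nhdsWithin_le_nhds
  filter_upwards [h2, h3, h4, self_mem_nhdsWithin] with τ b1 b2 b3 b4
  have b4' : τ < t := b4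
  have c1 : qf π b t = Real.log (h t) / t := by
    unfold qf
    rw [hht, hx2]
  have c2 : Real.log (h τ) / τ ≤ qf π b τ := by
    unfold qf
    exact div_le_div_of_nonneg_right (Real.log_le_log b2 (hle τ)) b3.le
  rw [slope_def_field, div_lt_iff_of_neg (by linarith)] at b1
  rw [c1]
  linarith

lemma qf_cont (hπ : Rep π) {δ : ℝ} (hδ : 0 < δ) (hδ1 : δ ≤ 1) {b : C} (hb : Acc π δ b) {t0 : ℝ}
    (ht0 : 0 < t0) : ContinuousOn (qf π b) (Icc t0 1) := by
  have hπc : Continuous π := by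
    have : ∀ c, ‖π c‖ ≤ 1 * ‖c‖ := fun c => by rw [hπ.iso, one_mul]
    exact (LinearMap.mkContinuous (π : C →ₗ[ℂ] (H →L[ℂ] H)) 1 this).continuous
  have hexp : Continuous fun t : ℝ => exp (t • Lg b) := by
    have h1 : Continuous fun t : ℝ => t • Lg b := continuous_id.smul continuous_const
    have h2 : Continuous (exp : C → C) := by
      rw [continuous_iff_continuousAt]
      intro x
      exact (hasFDerivAt_exp (𝕂 := ℝ) (x := x)).continuousAt
    exact h2.comp h1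
  apply ContinuousOn.div
  · apply ContinuousOn.log
    · exact (nr_cont.comp (hπc.comp hexp)).continuousOn
    · intro t ht
      exact ((hb.exp hπ hδ hδ1 ⟨ht0.le.trans ht.1, ht.2⟩).nr_pos hδ).ne'
  · exact continuousOn_id
  · intro t ht
    exact (lt_of_lt_of_le ht0 ht.1).ne'

lemma qf_mono (hπ : Rep π) {δ : ℝ} (hδ : 0 < δ) (hδ1 : δ ≤ 1) {b : C} (hb : Acc π δ b) {t0 : ℝ}
    (ht0 : 0 < t0) (ht1 : t0 ≤ 1) : qf π b 1 ≤ qf π b t0 := by
  apply le_of_forall_pos_le_add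
  intro ε hε
  set g : ℝ → ℝ := fun τ => qf π b τ - ε * τ with hg
  have hgc : ContinuousOn g (Icc t0 1) :=
    (qf_cont hπ hδ hδ1 hb ht0).sub (continuousOn_const.mul continuousOn_id)
  set S := Icc t0 1 ∩ g ⁻¹' Ici (g 1) with hS
  have hScl : IsClosed S := hgc.preimage_isClosed_of_isClosed isClosed_Icc isClosed_Ici
  have hSne : S.Nonempty := ⟨1, ⟨ht1, le_rfl⟩, mem_preimage.mpr (mem_Ici.mpr le_rfl)⟩
  have hSb : BddBelow S := ⟨t0, fun x hx => hx.1.1⟩
  have hm := hScl.csInf_mem hSne hSb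
  set m := sInf S with hmd
  have hmt : m = t0 := by
    by_contra hne
    have hlt : t0 < m := lt_of_le_of_ne hm.1.1 (Ne.symm hne)
    have h1 := qf_left hπ hδ hδ1 hb (ht0.trans hlt) hm.1.2 hε
    have h2 : ∀ᶠ τ in 𝓝[<] m, t0 < τ := (lt_mem_nhds hlt).filter_mono nhdsWithin_le_nhds
    obtain ⟨τ, b1, b2, b3⟩ := (h1.and (h2.and self_mem_nhdsWithin)).exists
    have b3' : τ < m := b3
    have hτS : τ ∈ S := by
      refine ⟨⟨b2.le, b3'.le.trans hm.1.2⟩, ?_⟩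
      have c1 : g 1 ≤ g m := hm.2
      have c2 : g m ≤ g τ := by
        rw [hg]
        simp only
        linarith
      exact c1.trans c2
    exact absurd (csInf_le hSb hτS) (not_le.mpr b3')
  have h3 : g 1 ≤ g t0 := by rw [← hmt]; exact hm.2
  rw [hg] at h3
  simp only at h3
  nlinarith

/-- the abstract form of the inequality -/
theorem nr_pow (hπ : Rep π) {δ : ℝ} (hδ : 0 < δ) (hδ1 : δ ≤ 1) {b : C} (hb : Acc π δ b) {t : ℝ}
    (ht0 : 0 < t) (ht1 : t < 1) : nr (π b) ^ t ≤ nr (π (Pw t b)) := by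
  have h1 := qf_mono hπ hδ hδ1 hb ht0 ht1.le
  unfold qf at h1
  rw [one_smul, exp_Lg (hb.gd hπ hδ hδ1), div_one, ← Pw_eq ht0 ht1 (hb.gd hπ hδ hδ1),
    le_div_iff₀ ht0] at h1
  have p1 := hb.nr_pos hδ
  have p2 := (hb.pw hπ hδ hδ1 ht0 ht1).nr_pos hδ
  rw [Real.rpow_def_of_pos p1]
  calc Real.exp (Real.log (nr (π b)) * t) ≤ Real.exp (Real.log (nr (π (Pw t b)))) :=
        Real.exp_le_exp.mpr h1
    _ = _ := Real.exp_log p2

end Pool.Agent.R815.Fp
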