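import Pool.Agent.R815.Fp.Alg

/-!
# Fractional powers as exponentials
-/

namespace Pool.Agent.R815.Fp

set_option linter.unusedSectionVars false
set_option linter.unusedSimpArgs false

open Set MeasureTheory Filter Topology NormedSpace

/-- the weight -/
noncomputable def w (t s : ℝ) : ℝ := (1 - s) ^ (t - 1) * s ^ (-t)

lemma w_nonneg {t s : ℝ} (hs : s ∈ Icc (0 : ℝ) 1) : 0 ≤ w t s :=
  mul_nonneg (Real.rpow_nonneg (by linarith [hs.2]) _) (Real.rpow_nonneg hs.1 _)

lemma w_eq (t : ℝ) {x : ℝ} (hx : x ∈ Icc (0 : ℝ) 1) :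
    (x : ℂ) ^ (((1 - t : ℝ) : ℂ) - 1) * (1 - (x : ℂ)) ^ ((t : ℂ) - 1) = ((w t x : ℝ) : ℂ) := by
  unfold w
  rw [Complex.ofReal_mul, Complex.ofReal_cpow hx.1, Complex.ofReal_cpow (by linarith [hx.2])]
  push_cast
  rw [mul_comm]
  congr 2
  ring

lemma w_int {t : ℝ} (h0 : 0 < t) (h1 : t < 1) : IntervalIntegrable (w t) volume 0 1 := by
  have h := Complex.betaIntegral_convergent (u := ((1 - t : ℝ) : ℂ)) (v := (t : ℂ))
    (by rw [Complex.ofReal_re]; linarith) (by rw [Complex.ofReal_re]; exact h0)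
  rw [intervalIntegrable_iff_integrableOn_Ioc_of_le zero_le_one] at h ⊢
  have h2 := h.re
  refine (integrableOn_congr_fun ?_ measurableSet_Ioc).mp h2
  intro x hx
  have := w_eq t (Ioc_subset_Icc_self hx)
  simp only
  rw [this]
  simp

lemma w_integral {t : ℝ} (h0 : 0 < t) (h1 : t < 1) :
    ∫ s in (0 : ℝ)..1, w t s = Real.pi / Real.sin (Real.pi * t) := by
  have h := Complex.Gamma_mul_Gamma_eq_betaIntegral (s := ((1 - t : ℝ) : ℂ)) (t := (t : ℂ))
    (by rw [Complex.ofReal_re]; linarith) (by rw [Complex.ofReal_re]; exact h0)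
  have e1 : ((1 - t : ℝ) : ℂ) + (t : ℂ) = 1 := by push_cast; ring
  rw [e1, Complex.Gamma_one, one_mul] at h
  unfold Complex.betaIntegral at h
  have h2 : ∫ x in (0 : ℝ)..1, (x : ℂ) ^ (((1 - t : ℝ) : ℂ) - 1) * (1 - (x : ℂ)) ^ ((t : ℂ) - 1)
      = ∫ x in (0 : ℝ)..1, ((w t x : ℝ) : ℂ) := by
    apply intervalIntegral.integral_congr
    intro x hx
    rw [uIcc01] at hx
    exact w_eq t hx
  rw [h2, intervalIntegral.integral_ofReal, mul_comm] at h
  have e2 : ((1 - t : ℝ) : ℂ) = 1 - (t : ℂ) := by push_cast; ring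
  rw [e2, Complex.Gamma_mul_Gamma_one_sub] at h
  have h3 : ((Real.pi / Real.sin (Real.pi * t) : ℝ) : ℂ) = ((∫ x in (0 : ℝ)..1, w t x : ℝ) : ℂ) := by
    rw [← h]
    push_cast
    rfl
  exact (Complex.ofReal_injective h3).symm

variable {C : Type*} [NormedCommRing C] [NormedAlgebra ℂ C] [CompleteSpace C]

/-- fractional powers -/
noncomputable def Pw (t : ℝ) (b : C) : C :=
  (Real.sin (Real.pi * t) / Real.pi) • ∫ s in (0 : ℝ)..1, w t s • (b * J b s)

lemma w_smul_int {t : ℝ} (h0 : 0 < t) (h1 : t < 1) {f : ℝ → C} (hf : ContinuousOn f (Icc 0 1)) :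
    IntervalIntegrable (fun s => w t s • f s) volume 0 1 := by
  apply (w_int h0 h1).smul_continuousOn
  rw [uIcc01]
  exact hf

lemma sin_pos' {t : ℝ} (h0 : 0 < t) (h1 : t < 1) : 0 < Real.sin (Real.pi * t) := by
  apply Real.sin_pos_of_pos_of_lt_pi
  · positivity
  · have := Real.pi_pos
    nlinarith

lemma J_one_left {s : ℝ} : J (1 : C) s = 1 := by
  unfold J Mx
  simp

lemma Pw_one {t : ℝ} (h0 : 0 < t) (h1 : t < 1) : Pw t (1 : C) = 1 := by
  unfold Pw
  simp only [J_one_left, mul_one]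
  rw [intervalIntegral.integral_smul_const, w_integral h0 h1, smul_smul]
  have := sin_pos' h0 h1
  have hp := Real.pi_pos
  have : Real.sin (Real.pi * t) / Real.pi * (Real.pi / Real.sin (Real.pi * t)) = 1 := by
    field_simp
  rw [this, one_smul]

/-- the slope -/
noncomputable def Nw (t : ℝ) (b : C) : C :=
  (Real.sin (Real.pi * t) / Real.pi) • ∫ s in (0 : ℝ)..1, w t s • ((1 - s) • (J b s * J b s))

lemma bJ_cont {m : ℝ} {b : C} (hb : Gd m b) : ContinuousOn (fun s => b * J b s) (Icc 0 1) :=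
  continuousOn_const.mul (J_cont hb)

lemma sJJ_cont {m m' : ℝ} {b c : C} (hb : Gd m b) (hc : Gd m' c) :
    ContinuousOn (fun s : ℝ => (1 - s) • (J b s * J c s)) (Icc 0 1) :=
  (continuousOn_const.sub continuousOn_id).smul ((J_cont hb).mul (J_cont hc))

lemma Pw_quad {t : ℝ} (h0 : 0 < t) (h1 : t < 1) {m : ℝ} {b c : C} (hb : Gd m b) (hc : Gd m c) :
    ‖Pw t c - Pw t b - (c - b) * Nw t b‖ ≤ m ^ 3 * ‖c - b‖ ^ 2 := by
  have hsin := sin_pos' h0 h1
  have hpi := Real.pi_pos
  have e1 : Pw t c - Pw t b = (Real.sin (Real.pi * t) / Real.pi) •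
      ∫ s in (0 : ℝ)..1, (c - b) * (w t s • ((1 - s) • (J b s * J c s))) := by
    unfold Pw
    rw [← smul_sub, ← intervalIntegral.integral_sub (w_smul_int h0 h1 (bJ_cont hc))
      (w_smul_int h0 h1 (bJ_cont hb))]
    congr 1
    apply intervalIntegral.integral_congr
    intro s hs
    rw [uIcc01] at hs
    simp only
    rw [← smul_sub, bJ_sub hb hc hs]
    simp only [mul_smul_comm]
  have i1 := w_smul_int h0 h1 (sJJ_cont hb hc)
  have i2 := w_smul_int h0 h1 (sJJ_cont hb hb)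
  rw [e1, ← const_mul_int _ _ i1]
  unfold Nw
  rw [mul_smul_comm, ← smul_sub, ← mul_sub, ← intervalIntegral.integral_sub i1 i2, norm_smul,
    Real.norm_eq_abs, abs_of_pos (by positivity)]
  have h2 : ‖∫ s in (0 : ℝ)..1, (w t s • ((1 - s) • (J b s * J c s))
      - w t s • ((1 - s) • (J b s * J b s)))‖ ≤ ∫ s in (0 : ℝ)..1, w t s * (m ^ 3 * ‖c - b‖) := by
    apply intervalIntegral.norm_integral_le_of_norm_le zero_le_one
    · filter_upwards with s hs
      have hs' := Ioc_subset_Icc_self hs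
      rw [← smul_sub, ← smul_sub, norm_smul, norm_smul, Real.norm_eq_abs, Real.norm_eq_abs,
        abs_of_nonneg (w_nonneg hs'), abs_of_nonneg (by linarith [hs'.2])]
      apply mul_le_mul_of_nonneg_left _ (w_nonneg hs')
      calc (1 - s) * ‖J b s * J c s - J b s * J b s‖ ≤ 1 * (m ^ 3 * ‖c - b‖) :=
            mul_le_mul (by linarith [hs'.1]) (JJ_norm hb hc hs') (norm_nonneg _) zero_le_one
        _ = _ := one_mul _
    · exact (w_int h0 h1).mul_const _
  rw [intervalIntegral.integral_mul_const, w_integral h0 h1] at h2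
  calc Real.sin (Real.pi * t) / Real.pi * ‖(c - b) * ∫ s in (0 : ℝ)..1,
        (w t s • ((1 - s) • (J b s * J c s)) - w t s • ((1 - s) • (J b s * J b s)))‖
      ≤ Real.sin (Real.pi * t) / Real.pi * (‖c - b‖
        * (Real.pi / Real.sin (Real.pi * t) * (m ^ 3 * ‖c - b‖))) := by
        apply mul_le_mul_of_nonneg_left _ (by positivity)
        exact (norm_mul_le _ _).trans (mul_le_mul_of_nonneg_left h2 (norm_nonneg _))
    _ = m ^ 3 * ‖c - b‖ ^ 2 := by
        field_simp

/-- integration by parts -/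
lemma w_parts {t : ℝ} (h0 : 0 < t) (h1 : t < 1) {m : ℝ} {b : C} (hb : Gd m b) :
    ∫ s in (0 : ℝ)..1, w t s • ((1 - s) • (J b s * J b s)) = t • ∫ s in (0 : ℝ)..1, w t s • J b s := by
  have i1 := w_smul_int h0 h1 (sJJ_cont hb hb)
  have i2 := w_smul_int h0 h1 (J_cont hb)
  have i3 : IntervalIntegrable (fun s => t • (w t s • J b s)) volume 0 1 := i2.smul t
  have hU : ∀ s ∈ Ioo (0 : ℝ) 1, HasDerivAt (fun s : ℝ => ((1 - s) ^ t * s ^ (1 - t)) • J b s)
      (w t s • ((1 - s) • (J b s * J b s)) - t • (w t s • J b s)) s := by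
    intro s hs
    have hs' := Ioo_subset_Icc_self hs
    have d1 : HasDerivAt (fun s : ℝ => (1 - s) ^ t) (-(t * (1 - s) ^ (t - 1))) s := by
      have a := (hasDerivAt_id s).const_sub 1
      have := a.rpow_const (p := t) (Or.inl (by simp only [id]; linarith [hs.2]))
      simp only [id_eq] at this
      convert this using 1
      ring
    have d2 : HasDerivAt (fun s : ℝ => s ^ (1 - t)) ((1 - t) * s ^ (-t)) s := by
      have := (hasDerivAt_id s).rpow_const (p := 1 - t) (Or.inl (by simp only [id]; linarith [hs.1]))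
      simp only [id_eq] at this
      convert this using 1
      have : 1 - t - 1 = -t := by ring
      rw [this]
      ring
    have d3 : HasDerivAt (fun s : ℝ => ((1 - s) ^ t * s ^ (1 - t)) • J b s)
        (((1 - s) ^ t * s ^ (1 - t)) • (-((b - 1) * (J b s * J b s)))
          + ((-(t * (1 - s) ^ (t - 1))) * s ^ (1 - t)
            + (1 - s) ^ t * ((1 - t) * s ^ (-t))) • J b s) s :=
      (d1.mul d2).smul (J_hasDeriv hb hs')
    refine d3.congr_deriv ?_
    have p1 : (1 - s) ^ t = (1 - s) * (1 - s) ^ (t - 1) := by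
      rw [Real.rpow_sub_one (by linarith [hs.2])]
      have : 1 - s ≠ 0 := by linarith [hs.2]
      field_simp
    have p2 : s ^ (1 - t) = s * s ^ (-t) := by
      have : (1 : ℝ) - t = -t + 1 := by ring
      rw [this, Real.rpow_add_one (by linarith [hs.1])]
      ring
    have h2 := J_mul hb hs'
    rw [p1, p2]
    unfold w
    unfold Mx at h2
    set α := (1 - s) ^ (t - 1) with hα
    set β := s ^ (-t) with hβ
    simp only [Algebra.smul_def, map_mul, map_sub, map_one, map_neg, map_add] at *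
    set A := algebraMap ℝ C α
    set B := algebraMap ℝ C β
    set S := algebraMap ℝ C s
    set T := algebraMap ℝ C t
    linear_combination (-(1 - S) * A * B * J b s) * h2
  have hc1 : ContinuousOn (fun s : ℝ => (1 - s) ^ t * s ^ (1 - t)) (Icc 0 1) := by
    apply ContinuousOn.mul
    · exact (continuousOn_const.sub continuousOn_id).rpow_const fun x _ => Or.inr h0.le
    · exact continuousOn_id.rpow_const fun x _ => Or.inr (by linarith)
  have hc : ContinuousOn (fun s : ℝ => ((1 - s) ^ t * s ^ (1 - t)) • J b s) (Icc 0 1) :=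
    hc1.smul (J_cont hb)
  have h := intervalIntegral.integral_eq_sub_of_hasDerivAt_of_le zero_le_one hc hU (i1.sub i3)
  rw [intervalIntegral.integral_sub i1 i3, intervalIntegral.integral_smul] at h
  rw [← sub_eq_zero, h]
  rw [sub_self, Real.zero_rpow h0.ne', Real.zero_rpow (by linarith)]
  simp

lemma Nw_eq {t : ℝ} (h0 : 0 < t) (h1 : t < 1) {m : ℝ} {b : C} (hb : Gd m b) :
    Nw t b = t • (Ring.inverse b * Pw t b) := by
  unfold Nw Pw
  rw [w_parts h0 h1 hb, mul_smul_comm, const_mul_int _ _ (w_smul_int h0 h1 (bJ_cont hb)),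
    smul_comm]
  congr 2
  apply intervalIntegral.integral_congr
  intro s _
  simp only
  rw [mul_smul_comm, ← mul_assoc, Ring.inverse_mul_cancel _ hb.unit, one_mul]

lemma Pw_path {t : ℝ} (h0 : 0 < t) (h1 : t < 1) {m : ℝ} {B : ℝ → C} {B' : C} {S : Set ℝ} {τ : ℝ}
    (hτ : τ ∈ S) (hG : ∀ σ ∈ S, Gd m (B σ)) (hB : HasDerivWithinAt B B' S τ) :
    HasDerivWithinAt (fun σ => Pw t (B σ)) (B' * (t • (Ring.inverse (B τ) * Pw t (B τ)))) S τ := by
  have := path_deriv (G := {c | Gd m c}) (F := Pw t) (N := Nw t (B τ))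
    (fun _ hc => Pw_quad h0 h1 (hG τ hτ) hc) hG hB
  rwa [Nw_eq h0 h1 (hG τ hτ)] at this

lemma exp_path {E : ℝ → C} {E' : C} {S : Set ℝ} {τ : ℝ} (hE : HasDerivWithinAt E E' S τ) :
    HasDerivWithinAt (fun σ => exp (E σ)) (exp (E τ) * E') S τ :=
  (hasFDerivAt_exp (𝕂 := ℝ) (x := E τ)).comp_hasDerivWithinAt τ hE

lemma const01 {f : ℝ → C} (h : ∀ τ ∈ Icc (0 : ℝ) 1, HasDerivWithinAt f 0 (Icc 0 1) τ) :
    f 1 = f 0 := by
  apply constant_of_derivWithin_zero (fun x hx => (h x hx).differentiableWithinAt)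
  · intro x hx
    exact (h x (Ico_subset_Icc_self hx)).derivWithin
      ((uniqueDiffOn_Icc zero_lt_one) x (Ico_subset_Icc_self hx))
  · simp

lemma Mx_Mx (b : C) (τ s : ℝ) : Mx (Mx b τ) s = Mx b (s * τ) := by
  unfold Mx
  rw [add_sub_cancel_left, smul_smul]

lemma Gd.seg {m : ℝ} {b : C} (h : Gd m b) {τ : ℝ} (hτ : τ ∈ Icc (0 : ℝ) 1) : Gd m (Mx b τ) := by
  intro s hs
  unfold J
  rw [Mx_Mx]
  exact h (s * τ) ⟨mul_nonneg hs.1 hτ.1, mul_le_one₀ hs.2 hτ.1 hτ.2⟩

lemma Mx_path (b : C) (S : Set ℝ) (τ : ℝ) : HasDerivWithinAt (Mx b) (b - 1) S τ := by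
  have := ((hasDerivAt_id τ).smul_const (b - 1)).const_add (1 : C)
  rw [one_smul] at this
  exact HasDerivAt.hasDerivWithinAt this

lemma exp_mul_exp_neg (x : C) : exp x * exp (-x) = 1 := by
  let _ : NormedAlgebra ℚ C := NormedAlgebra.restrictScalars ℚ ℂ C
  rw [← exp_add, add_neg_cancel, exp_zero]

/-- the exponential of the logarithm -/
lemma exp_Lg {m : ℝ} {b : C} (hb : Gd m b) : exp (Lg b) = b := by
  have h : ∀ τ ∈ Icc (0 : ℝ) 1,
      HasDerivWithinAt (fun τ => exp (-Lg (Mx b τ)) * Mx b τ) 0 (Icc 0 1) τ := by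
    intro τ hτ
    have h1 := (Lg_path hτ (fun σ hσ => hb.seg hσ) (Mx_path b (Icc 0 1) τ)).neg
    have h2 := (exp_path h1).mul (Mx_path b (Icc 0 1) τ)
    refine h2.congr_deriv ?_
    have h3 := (hb.seg hτ).mul_inv
    linear_combination (-exp (-Lg (Mx b τ)) * (b - 1)) * h3
  have h4 := const01 h
  rw [Mx_one, Mx_zero, Lg_one, neg_zero, exp_zero, one_mul] at h4
  have h5 := exp_mul_exp_neg (Lg b)
  linear_combination (-exp (Lg b)) * h4 + b * h5

/-- the power as an exponential -/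
lemma Pw_eq {t : ℝ} (h0 : 0 < t) (h1 : t < 1) {m : ℝ} {b : C} (hb : Gd m b) :
    Pw t b = exp (t • Lg b) := by
  have h : ∀ τ ∈ Icc (0 : ℝ) 1,
      HasDerivWithinAt (fun τ => exp (-(t • Lg (Mx b τ))) * Pw t (Mx b τ)) 0 (Icc 0 1) τ := by
    intro τ hτ
    have h1' := ((Lg_path hτ (fun σ hσ => hb.seg hσ) (Mx_path b (Icc 0 1) τ)).const_smul t).neg
    have h2 := (exp_path h1').mul (Pw_path h0 h1 hτ (fun σ hσ => hb.seg hσ) (Mx_path b (Icc 0 1) τ))
    refine h2.congr_deriv ?_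
    simp only [Algebra.smul_def]
    ring
  have h4 := const01 h
  rw [Mx_one, Mx_zero, Lg_one, smul_zero, neg_zero, exp_zero, one_mul, Pw_one h0 h1] at h4
  have h5 := exp_mul_exp_neg (t • Lg b)
  linear_combination (exp (t • Lg b)) * h4 - Pw t b * h5

/-- the logarithm of an exponential -/
lemma Lg_exp {m : ℝ} {K : C} (h : ∀ τ ∈ Icc (0 : ℝ) 1, Gd m (exp (τ • K))) : Lg (exp K) = K := by
  have h1 : ∀ τ ∈ Icc (0 : ℝ) 1,
      HasDerivWithinAt (fun τ : ℝ => Lg (exp (τ • K)) - τ • K) 0 (Icc 0 1) τ := by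
    intro τ hτ
    have a1 : HasDerivWithinAt (fun τ : ℝ => τ • K) K (Icc 0 1) τ := by
      have := (hasDerivAt_id τ).smul_const K
      rw [one_smul] at this
      exact HasDerivAt.hasDerivWithinAt this
    have a2 := (Lg_path hτ h (exp_path a1)).sub a1
    refine a2.congr_deriv ?_
    have a3 := (h τ hτ).mul_inv
    linear_combination K * a3
  have h4 := const01 h1
  simp only [one_smul, zero_smul, exp_zero, Lg_one, sub_zero] at h4
  exact sub_eq_zero.mp h4

end Pool.Agent.R815.Fp
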